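import Pool.Agent.Lib.MP_b40da5_nt_h5.Main

set_option autoImplicit false

namespace Pool.Agent.Lib.MP_b40da5_nt_h5

open Pool.Agent.Lib.MP_b40da5_nt

theorem last_mem {k : ℕ} (hk : 2 ≤ k) : k - 1 ∈ ySet k := by
  rw [ySet, Finset.mem_filter, Finset.mem_Icc]
  refine ⟨⟨by omega, le_rfl⟩, ?_⟩
  obtain ⟨m, rfl⟩ : ∃ m, k = m + 2 := ⟨k - 2, by omega⟩
  refine ⟨(m + 2) * (m + 1) + 1, ?_⟩
  have e : m + 2 - 1 = m + 1 := by omega
  rw [e]
  ring

theorem root_mem {t : ℕ} (ht : 1 ≤ t) : t ∈ ySet (2 * t ^ 2) := by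
  rw [ySet, Finset.mem_filter, Finset.mem_Icc]
  refine ⟨⟨ht, ?_⟩, ?_⟩
  · have : t + 1 ≤ 2 * t ^ 2 := by nlinarith
    omega
  · refine ⟨2 * t ^ 3 + t, ?_⟩
    ring

theorem lt_of_ne_last {k y : ℕ} (hk : 2 ≤ k) (hy : y ∈ ySet k) (h : y ≠ k - 1) :
    (y : ℤ) < k - 1 := by
  rw [ySet, Finset.mem_filter, Finset.mem_Icc] at hy
  omega

theorem two_le {k s : ℕ} (hs : 2 * s ^ 8 < k) : 2 ≤ k ∨ k = 1 := by omega

theorem all_eq {k p a s : ℕ} (hp : p.Prime) (hk2 : 2 ≤ k) (hk : k = p ^ a * s)
    (hs : 2 * s ^ 8 < k) {y z : ℕ} (hy : y ∈ ySet k) (hz : z ∈ ySet k) (h1 : y ≠ k - 1)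
    (h2 : z ≠ k - 1) : y = z := by
  obtain ⟨x, i, hx⟩ := exists_ex hp hk hy (lt_of_ne_last hk2 hy h1)
  obtain ⟨w, j, hw⟩ := exists_ex hp hk hz (lt_of_ne_last hk2 hz h2)
  rcases le_total j i with h | h
  · have := ex_unique hp hk2 hk hs hx hw h
    exact_mod_cast this
  · have := ex_unique hp hk2 hk hs hw hx h
    exact_mod_cast this.symm

theorem main (k p a s : ℕ) (hk2 : 2 ≤ k) (hp : p.Prime) (hk : k = p ^ a * s) :
    (2 * s ^ 8 < k → numClasses k = 3 ∨ numClasses k = 5) ∧
    (32 * s ^ 8 < k → 2 * s ^ 12 < k →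
      ((∃ t, k = 2 * t ^ 2) → numClasses k = 5) ∧ ((¬ ∃ t, k = 2 * t ^ 2) → numClasses k = 3)) := by
  rw [numClasses_eq' hk2]
  refine ⟨fun hs => ?_, fun hs1 hs2 => ⟨?_, ?_⟩⟩
  · by_cases h : ∃ y ∈ ySet k, y ≠ k - 1
    · right
      obtain ⟨y, hy, hne⟩ := h
      have : ySet k = {k - 1, y} := by
        ext z
        rw [Finset.mem_insert, Finset.mem_singleton]
        constructor
        · intro hz
          by_cases hz1 : z = k - 1
          · exact Or.inl hz1
          · exact Or.inr (all_eq hp hk2 hk hs hz hy hz1 hne)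
        · rintro (rfl | rfl)
          · exact last_mem hk2
          · exact hy
      rw [this, Finset.card_pair hne.symm]
    · left
      push Not at h
      have : ySet k = {k - 1} := by
        ext z
        rw [Finset.mem_singleton]
        exact ⟨h z, fun hz => hz ▸ last_mem hk2⟩
      rw [this, Finset.card_singleton]
  · rintro ⟨t, ht⟩
    have ht1 : 1 ≤ t := by
      rcases Nat.eq_zero_or_pos t with h | h
      · rw [h] at ht
        omega
      · exact h
    have hs : 2 * s ^ 8 < k := by omega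
    have hne : t ≠ k - 1 := by
      have : s ^ 8 ≠ 0 := by
        intro h0
        have : s = 0 := by
          by_contra hne
          exact absurd h0 (pow_ne_zero 8 hne)
        rw [this, mul_zero] at hk
        omega
      have : 32 < k := by omega
      intro h
      have h3 : t + 1 = k := by omega
      nlinarith
    have : ySet k = {k - 1, t} := by
      ext z
      rw [Finset.mem_insert, Finset.mem_singleton]
      have hmem : t ∈ ySet k := by
        rw [ht]
        exact root_mem ht1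
      constructor
      · intro hz
        by_cases hz1 : z = k - 1
        · exact Or.inl hz1
        · exact Or.inr (all_eq hp hk2 hk hs hz hmem hz1 hne)
      · rintro (rfl | rfl)
        · exact last_mem hk2
        · exact hmem
    rw [this, Finset.card_pair hne.symm]
  · intro h
    have : ySet k = {k - 1} := by
      ext z
      rw [Finset.mem_singleton]
      refine ⟨fun hz => ?_, fun hz => hz ▸ last_mem hk2⟩
      by_contra hz1
      obtain ⟨x, i, hx⟩ := exists_ex hp hk hz (lt_of_ne_last hk2 hz hz1)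
      have := ex_root hp hk2 hk hs1 hs2 hx
      exact h ⟨z, by exact_mod_cast this.symm⟩
    rw [this, Finset.card_singleton]

end Pool.Agent.Lib.MP_b40da5_nt_h5
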