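import Pool.Agent.Lib.MP_b40da5_nt_h5.Main

set_option autoImplicit false

namespace Pool.Agent.Lib.MP_b40da5_nt_h5

/-- Elements of norm at most `2 k` in absolute value: integers times units, or units times
`k + 1 ± √d`. -/
theorem small_norm2 {k : ℤ} (hk : 2 ≤ k) : ∀ (n : ℕ) (x y : ℤ), y.natAbs = n →
    |x ^ 2 - (k ^ 2 + 1) * y ^ 2| ≤ 2 * k →
    (∃ g u v : ℤ, (u ^ 2 - (k ^ 2 + 1) * v ^ 2 = 1 ∨ u ^ 2 - (k ^ 2 + 1) * v ^ 2 = -1) ∧
      x = g * u ∧ y = g * v) ∨
    ∃ u v s : ℤ, (s = 1 ∨ s = -1) ∧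
      (u ^ 2 - (k ^ 2 + 1) * v ^ 2 = 1 ∨ u ^ 2 - (k ^ 2 + 1) * v ^ 2 = -1) ∧
      x = u * (k + 1) + s * (k ^ 2 + 1) * v ∧ y = s * u + v * (k + 1) := by
  intro n
  induction n using Nat.strong_induction_on with
  | _ n ih =>
    intro x y hn h
    by_cases hy : y = 0
    · left
      exact ⟨x, 1, 0, Or.inl (by ring), by ring, by rw [hy]; ring⟩
    obtain ⟨σ, hσ, X, hX0, hX⟩ : ∃ σ : ℤ, σ ^ 2 = 1 ∧ ∃ X, 0 ≤ X ∧ x = σ * X := by
      rcases le_total 0 x with h0 | h0
      · exact ⟨1, by norm_num, x, h0, by ring⟩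
      · exact ⟨-1, by norm_num, -x, by linarith, by ring⟩
    obtain ⟨τ, hτ, Y, hY0, hY⟩ : ∃ τ : ℤ, τ ^ 2 = 1 ∧ ∃ Y, 1 ≤ Y ∧ y = τ * Y := by
      rcases lt_or_gt_of_ne hy with h0 | h0
      · exact ⟨-1, by norm_num, -y, by omega, by ring⟩
      · exact ⟨1, by norm_num, y, by omega, by ring⟩
    have hst : σ * τ = 1 ∨ σ * τ = -1 := by
      have h1 : (σ * τ) ^ 2 = 1 := by rw [mul_pow, hσ, hτ, one_mul]
      have h2 : (σ * τ - 1) * (σ * τ + 1) = 0 := by linear_combination h1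
      rcases mul_eq_zero.mp h2 with h | h
      · left; linarith
      · right; linarith
    have hx2 : x ^ 2 = X ^ 2 := by rw [hX, mul_pow, hσ, one_mul]
    have hy2 : y ^ 2 = Y ^ 2 := by rw [hY, mul_pow, hτ, one_mul]
    have hab : y.natAbs = Y.natAbs := by
      rw [Int.natAbs_eq_iff_sq_eq, hy2]
    rw [hx2, hy2, abs_le] at h
    obtain ⟨h1, h2⟩ := h
    have hY2 : 1 ≤ Y ^ 2 := by nlinarith
    have h3 : (k - 1) * Y ≤ X := by
      refine le_of_sq_le_sq ?_ hX0
      have : 2 * k ≤ 2 * k * Y ^ 2 := by nlinarith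
      nlinarith
    have h4 : X ≤ (k + 1) * Y := by
      refine le_of_sq_le_sq ?_ (by positivity)
      have : 2 * k ≤ 2 * k * Y ^ 2 := by nlinarith
      nlinarith
    rcases eq_or_lt_of_le h3 with h5 | h3'
    · -- `X = (k - 1) Y`, so `Y = 1`
      right
      have hY1 : Y = 1 := by
        rw [← h5] at h1
        nlinarith
      rw [hY1, mul_one] at h5 hY
      refine ⟨σ * k, τ, -(σ * τ), by rcases hst with h | h <;> rw [h] <;> norm_num, ?_, ?_, ?_⟩
      · right
        rw [mul_pow, hσ, hτ]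
        ring
      · rw [hX, ← h5]
        linear_combination (σ * (k ^ 2 + 1)) * hτ
      · rw [hY]
        linear_combination (τ * k) * hσ
    rcases eq_or_lt_of_le h4 with h5 | h4'
    · right
      have hY1 : Y = 1 := by
        rw [h5] at h2
        nlinarith
      rw [hY1, mul_one] at h5 hY
      refine ⟨σ, 0, σ * τ, hst, ?_, ?_, ?_⟩
      · left
        rw [hσ]
        ring
      · rw [hX, h5]
        ring
      · rw [hY]
        linear_combination (-τ) * hσ
    have h5 : (X - k * Y).natAbs < n := by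
      rw [← hn, hab]
      have e1 : |X - k * Y| < Y := by
        rw [abs_lt]
        constructor <;> nlinarith
      zify
      rw [abs_of_nonneg (by linarith : (0 : ℤ) ≤ Y)]
      exact e1
    rcases ih _ h5 ((k ^ 2 + 1) * Y - k * X) (X - k * Y) rfl (by
      have e : ((k ^ 2 + 1) * Y - k * X) ^ 2 - (k ^ 2 + 1) * (X - k * Y) ^ 2 =
          -(X ^ 2 - (k ^ 2 + 1) * Y ^ 2) := by ring
      rw [e, abs_neg, abs_le]
      exact ⟨h1, h2⟩) with ⟨g, u, v, huv, hu, hv⟩ | ⟨u, v, s, hs, huv, hu, hv⟩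
    · left
      refine ⟨g, σ * (k * u + (k ^ 2 + 1) * v), τ * (u + k * v), ?_, ?_, ?_⟩
      · have e : (σ * (k * u + (k ^ 2 + 1) * v)) ^ 2 - (k ^ 2 + 1) * (τ * (u + k * v)) ^ 2 =
            -(u ^ 2 - (k ^ 2 + 1) * v ^ 2) := by
          rw [mul_pow, mul_pow, hσ, hτ]
          ring
        rw [e]
        rcases huv with h6 | h6
        · right; rw [h6]
        · left; rw [h6]; ring
      · have : X = k * (g * u) + (k ^ 2 + 1) * (g * v) := by rw [← hu, ← hv]; ring
        rw [hX, this]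
        ring
      · have : Y = g * u + k * (g * v) := by rw [← hu, ← hv]; ring
        rw [hY, this]
        ring
    · right
      refine ⟨σ * (k * u + (k ^ 2 + 1) * v), τ * (u + k * v), σ * τ * s, ?_, ?_, ?_, ?_⟩
      · rcases hst with h | h <;> rcases hs with h' | h' <;> rw [h, h'] <;> norm_num
      · have e : (σ * (k * u + (k ^ 2 + 1) * v)) ^ 2 - (k ^ 2 + 1) * (τ * (u + k * v)) ^ 2 =
            -(u ^ 2 - (k ^ 2 + 1) * v ^ 2) := by
          rw [mul_pow, mul_pow, hσ, hτ]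
          ring
        rw [e]
        rcases huv with h6 | h6
        · right; rw [h6]
        · left; rw [h6]; ring
      · have : X = k * (u * (k + 1) + s * (k ^ 2 + 1) * v) +
            (k ^ 2 + 1) * (s * u + v * (k + 1)) := by rw [← hu, ← hv]; ring
        rw [hX, this]
        linear_combination (-(σ * s * (k ^ 2 + 1) * (u + k * v))) * hτ
      · have : Y = (u * (k + 1) + s * (k ^ 2 + 1) * v) + k * (s * u + v * (k + 1)) := by
          rw [← hu, ← hv]; ring
        rw [hY, this]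
        linear_combination (-(τ * s * (k * u + (k ^ 2 + 1) * v))) * hσ

end Pool.Agent.Lib.MP_b40da5_nt_h5
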