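import Mathlib

/-!
# The valuations of `ℤ√(k²+1)` at the primes dividing `k`
-/

set_option autoImplicit false

namespace Pool.Agent.Lib.MP_b40da5_nt_h5

section padic

variable {p : ℕ} [hp : Fact p.Prime]

theorem dvd_iff_le {x : ℤ_[p]} (hx : x ≠ 0) (n : ℕ) : (p : ℤ_[p]) ^ n ∣ x ↔ n ≤ x.valuation := by
  rw [← PadicInt.mem_span_pow_iff_le_valuation x hx n, Ideal.mem_span_singleton]

theorem val_lt {x y : ℤ_[p]} (hx : x ≠ 0) (hy : y ≠ 0) (h : ‖x‖ < ‖y‖) :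
    y.valuation < x.valuation := by
  rw [PadicInt.norm_eq_zpow_neg_valuation hx, PadicInt.norm_eq_zpow_neg_valuation hy,
    zpow_lt_zpow_iff_right₀ (by exact_mod_cast hp.out.one_lt)] at h
  omega

theorem val_int {m : ℤ} (hm : m ≠ 0) (n : ℕ) :
    n ≤ ((m : ℤ_[p])).valuation ↔ (p : ℤ) ^ n ∣ m := by
  rw [← dvd_iff_le (by exact_mod_cast hm), PadicInt.pow_p_dvd_int_iff]

/-- the valuation of two -/
noncomputable def ee (p : ℕ) [Fact p.Prime] : ℕ := ((2 : ℤ_[p])).valuation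

theorem two_ne : (2 : ℤ_[p]) ≠ 0 := by norm_num

/-- a square root of `k² + 1` congruent to one -/
structure Root (k p : ℕ) [Fact p.Prime] where
  s : ℤ_[p]
  sq : s * s = (((k : ℤ) ^ 2 + 1 : ℤ) : ℤ_[p])
  one : (p : ℤ_[p]) ^ (1 + ee p) ∣ s - 1

theorem exists_root {k : ℕ} (hk0 : k ≠ 0) (hk : (p : ℤ) ^ (1 + ee p) ∣ (k : ℤ)) :
    Nonempty (Root k p) := by
  have hkz : ((k : ℤ) : ℤ_[p]) ≠ 0 := by exact_mod_cast hk0
  have h1 : 1 + ee p ≤ (((k : ℤ) : ℤ_[p])).valuation :=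
    (val_int (by exact_mod_cast hk0) _).mpr hk
  have h2 : ‖((k : ℤ) : ℤ_[p])‖ < ‖(2 : ℤ_[p])‖ := by
    rw [PadicInt.norm_eq_zpow_neg_valuation hkz, PadicInt.norm_eq_zpow_neg_valuation two_ne,
      zpow_lt_zpow_iff_right₀ (by exact_mod_cast hp.out.one_lt)]
    have : ((2 : ℤ_[p])).valuation = ee p := rfl
    omega
  set F : Polynomial ℤ_[p] := Polynomial.X ^ 2 - Polynomial.C ((((k : ℤ) ^ 2 + 1 : ℤ)) : ℤ_[p])
    with hF
  have hF1 : F.aeval (1 : ℤ_[p]) = -((k : ℤ) : ℤ_[p]) ^ 2 := by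
    simp [hF]
  have hF2 : F.derivative.aeval (1 : ℤ_[p]) = 2 := by
    rw [hF, Polynomial.derivative_sub, Polynomial.derivative_X_pow, Polynomial.derivative_C]
    simp
  obtain ⟨z, hz1, hz2, -⟩ := hensels_lemma (F := F) (a := (1 : ℤ_[p])) (by
    rw [hF1, hF2, norm_neg, norm_pow]
    exact pow_lt_pow_left₀ h2 (norm_nonneg _) (by norm_num))
  refine ⟨⟨z, ?_, ?_⟩⟩
  · have h3 : z ^ 2 - ((((k : ℤ) ^ 2 + 1 : ℤ)) : ℤ_[p]) = 0 := by
      have := hz1
      simp only [hF, map_sub, map_pow, Polynomial.aeval_X, Polynomial.aeval_C] at this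
      exact this
    rw [← sq]
    exact sub_eq_zero.mp h3
  · rw [hF2] at hz2
    by_cases h3 : z - 1 = 0
    · rw [h3]
      exact dvd_zero _
    · rw [dvd_iff_le h3]
      have := val_lt h3 two_ne hz2
      have h4 : ((2 : ℤ_[p])).valuation = ee p := rfl
      omega

theorem nsq {k : ℕ} (hk : 1 ≤ k) : ∀ n : ℤ, (k : ℤ) ^ 2 + 1 ≠ n * n := by
  intro n h
  have hk' : (1 : ℤ) ≤ k := by exact_mod_cast hk
  rcases le_total 0 n with h0 | h0
  · have h1 : (k : ℤ) < n := by nlinarith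
    nlinarith
  · have h1 : (k : ℤ) < -n := by nlinarith
    nlinarith

theorem norm_ne {k : ℕ} (hk : 1 ≤ k) {x : ℤ√((k : ℤ) ^ 2 + 1)} (hx : x ≠ 0) : x.norm ≠ 0 :=
  fun h => hx ((Zsqrtd.norm_eq_zero (nsq hk) x).mp h)

theorem ee_two [Fact (Nat.Prime 2)] : ee 2 = 1 := by
  have := PadicInt.valuation_p (p := 2)
  unfold ee
  exact_mod_cast this

theorem ee_odd (h2 : p ≠ 2) : ee p = 0 := by
  by_contra h
  have h1 : 1 ≤ (((2 : ℤ) : ℤ_[p])).valuation := by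
    have : ((2 : ℤ) : ℤ_[p]) = 2 := by norm_num
    rw [this]
    exact Nat.one_le_iff_ne_zero.mpr h
  rw [val_int (by norm_num), pow_one] at h1
  have h3 : p ∣ 2 := by exact_mod_cast h1
  exact h2 ((Nat.prime_dvd_prime_iff_eq hp.out Nat.prime_two).mp h3)

theorem ee_le : ee p ≤ 1 := by
  by_cases h : p = 2
  · subst h
    rw [ee_two]
  · rw [ee_odd h]
    omega

variable {k : ℕ}

/-- the homomorphism to the `p`-adic integers -/
noncomputable def phi (r : Root k p) : ℤ√((k : ℤ) ^ 2 + 1) →+* ℤ_[p] :=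
  Zsqrtd.lift ⟨r.s, r.sq⟩

theorem phi_apply (r : Root k p) (x : ℤ√((k : ℤ) ^ 2 + 1)) :
    phi r x = (x.re : ℤ_[p]) + x.im * r.s := rfl

theorem phi_star (r : Root k p) (x : ℤ√((k : ℤ) ^ 2 + 1)) :
    phi r (star x) = (x.re : ℤ_[p]) - x.im * r.s := by
  rw [phi_apply, Zsqrtd.re_star, Zsqrtd.im_star]
  push_cast
  ring

theorem phi_mul_star (r : Root k p) (x : ℤ√((k : ℤ) ^ 2 + 1)) :
    phi r x * phi r (star x) = ((x.norm : ℤ) : ℤ_[p]) := by
  rw [← map_mul, ← Zsqrtd.norm_eq_mul_conj, map_intCast]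

theorem phi_ne (hk : 1 ≤ k) (r : Root k p) {x : ℤ√((k : ℤ) ^ 2 + 1)} (hx : x ≠ 0) :
    phi r x ≠ 0 := by
  intro h
  have h1 := phi_mul_star r x
  rw [h, zero_mul] at h1
  exact norm_ne hk hx (by exact_mod_cast h1.symm)

theorem star_ne {x : ℤ√((k : ℤ) ^ 2 + 1)} (hx : x ≠ 0) : star x ≠ 0 := by
  rwa [Ne, star_eq_zero]

/-- the difference of the two valuations above `p` -/
noncomputable def nu (r : Root k p) (x : ℤ√((k : ℤ) ^ 2 + 1)) : ℤ :=
  ((phi r x).valuation : ℤ) - ((phi r (star x)).valuation : ℤ)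

theorem nu_mul (hk : 1 ≤ k) (r : Root k p) {x y : ℤ√((k : ℤ) ^ 2 + 1)} (hx : x ≠ 0)
    (hy : y ≠ 0) : nu r (x * y) = nu r x + nu r y := by
  unfold nu
  rw [star_mul, map_mul, map_mul, PadicInt.valuation_mul (phi_ne hk r hx) (phi_ne hk r hy),
    PadicInt.valuation_mul (phi_ne hk r (star_ne hy)) (phi_ne hk r (star_ne hx))]
  push_cast
  ring

theorem nu_star (r : Root k p) (x : ℤ√((k : ℤ) ^ 2 + 1)) : nu r (star x) = -nu r x := by
  unfold nu
  rw [star_star]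
  ring

theorem nu_int (r : Root k p) (m : ℤ) : nu r (m : ℤ√((k : ℤ) ^ 2 + 1)) = 0 := by
  unfold nu
  rw [show star ((m : ℤ√((k : ℤ) ^ 2 + 1))) = (m : ℤ√((k : ℤ) ^ 2 + 1)) from by
    ext <;> simp]
  ring

theorem val_sum (hk : 1 ≤ k) (r : Root k p) {x : ℤ√((k : ℤ) ^ 2 + 1)} (hx : x ≠ 0) :
    (phi r x).valuation + (phi r (star x)).valuation = (((x.norm : ℤ) : ℤ_[p])).valuation := by
  rw [← phi_mul_star r x, PadicInt.valuation_mul (phi_ne hk r hx) (phi_ne hk r (star_ne hx))]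

theorem nu_unit (hk : 1 ≤ k) (r : Root k p) {x : ℤ√((k : ℤ) ^ 2 + 1)}
    (hx : x.norm = 1 ∨ x.norm = -1) : nu r x = 0 := by
  have hx0 : x ≠ 0 := by
    rintro rfl
    rcases hx with h | h <;> simp at h
  have h1 := val_sum hk r hx0
  have h2 : (((x.norm : ℤ) : ℤ_[p])).valuation = 0 := by
    by_contra h
    have h3 : 1 ≤ (((x.norm : ℤ) : ℤ_[p])).valuation := Nat.one_le_iff_ne_zero.mpr h
    rw [val_int (norm_ne hk hx0), pow_one] at h3
    have h4 : (p : ℤ) ∣ 1 := by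
      rcases hx with h | h
      · rwa [h] at h3
      · rw [h] at h3
        exact (dvd_neg).mp h3
    have h5 : p ∣ 1 := by exact_mod_cast h4
    exact hp.out.one_lt.ne' (Nat.dvd_one.mp h5)
  unfold nu
  omega

theorem s_ne (r : Root k p) : r.s ≠ 0 := by
  intro h
  have h1 := r.sq
  rw [h, zero_mul] at h1
  have h2 : ((k : ℤ) ^ 2 + 1 : ℤ) = 0 := by exact_mod_cast h1.symm
  have : (0 : ℤ) < (k : ℤ) ^ 2 + 1 := by positivity
  omega

theorem val_s (r : Root k p) (hpk : (p : ℤ) ∣ (k : ℤ)) : r.s.valuation = 0 := by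
  have h1 : r.s.valuation + r.s.valuation =
      ((((k : ℤ) ^ 2 + 1 : ℤ) : ℤ_[p])).valuation := by
    rw [← PadicInt.valuation_mul (s_ne r) (s_ne r), r.sq]
  by_contra h
  have h2 : 1 ≤ ((((k : ℤ) ^ 2 + 1 : ℤ) : ℤ_[p])).valuation := by omega
  rw [val_int (by positivity), pow_one] at h2
  have h3 : (p : ℤ) ∣ 1 := by
    have := dvd_sub h2 (hpk.pow (n := 2) (by norm_num))
    simpa using this
  have h5 : p ∣ 1 := by exact_mod_cast h3
  exact hp.out.one_lt.ne' (Nat.dvd_one.mp h5)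

/-- a primitive element has small valuation at one of the two places -/
theorem prim (hk : 1 ≤ k) (hpk : (p : ℤ) ∣ (k : ℤ)) (r : Root k p)
    {x : ℤ√((k : ℤ) ^ 2 + 1)} (hx : x ≠ 0) (hprim : ¬ ((p : ℤ) ∣ x.re ∧ (p : ℤ) ∣ x.im)) (n : ℕ)
    (hn : (p : ℤ) ^ n ∣ x.norm) : n ≤ (nu r x).natAbs + 2 * ee p := by
  have h1 := val_sum hk r hx
  have h2 : n ≤ (((x.norm : ℤ) : ℤ_[p])).valuation := (val_int (norm_ne hk hx) n).mpr hn
  have h3 : (phi r x).valuation ≤ ee p ∨ (phi r (star x)).valuation ≤ ee p := by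
    by_contra hcon
    rw [not_or, not_le, not_le] at hcon
    have a1 : (p : ℤ_[p]) ^ (1 + ee p) ∣ phi r x :=
      (dvd_iff_le (phi_ne hk r hx) _).mpr (by omega)
    have a2 : (p : ℤ_[p]) ^ (1 + ee p) ∣ phi r (star x) :=
      (dvd_iff_le (phi_ne hk r (star_ne hx)) _).mpr (by omega)
    have a3 : (p : ℤ_[p]) ^ (1 + ee p) ∣ 2 * (x.re : ℤ_[p]) := by
      have := dvd_add a1 a2
      rw [phi_apply, phi_star] at this
      convert this using 1
      ring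
    have a4 : (p : ℤ_[p]) ^ (1 + ee p) ∣ 2 * ((x.im : ℤ_[p]) * r.s) := by
      have := dvd_sub a1 a2
      rw [phi_apply, phi_star] at this
      convert this using 1
      ring
    have e2 : ((2 : ℤ_[p])).valuation = ee p := rfl
    apply hprim
    constructor
    · by_cases h0 : x.re = 0
      · rw [h0]
        exact dvd_zero _
      · have h0' : (x.re : ℤ_[p]) ≠ 0 := by exact_mod_cast h0
        rw [dvd_iff_le (mul_ne_zero two_ne h0'), PadicInt.valuation_mul two_ne h0', e2] at a3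
        have : 1 ≤ ((x.re : ℤ_[p])).valuation := by omega
        rwa [val_int h0, pow_one] at this
    · by_cases h0 : x.im = 0
      · rw [h0]
        exact dvd_zero _
      · have h0' : (x.im : ℤ_[p]) ≠ 0 := by exact_mod_cast h0
        rw [dvd_iff_le (mul_ne_zero two_ne (mul_ne_zero h0' (s_ne r))),
          PadicInt.valuation_mul two_ne (mul_ne_zero h0' (s_ne r)),
          PadicInt.valuation_mul h0' (s_ne r), val_s r hpk, e2] at a4
        have : 1 ≤ ((x.im : ℤ_[p])).valuation := by omega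
        rwa [val_int h0, pow_one] at this
  unfold nu
  omega

/-- the valuation of `k` at `p` -/
noncomputable def vk (k p : ℕ) [Fact p.Prime] : ℕ := (((k : ℤ) : ℤ_[p])).valuation

/-- elements of norm `k²`: parity and size -/
theorem nu_box (hk : 1 ≤ k) (hpk : (p : ℤ) ∣ (k : ℤ)) (r : Root k p)
    {x : ℤ√((k : ℤ) ^ 2 + 1)} (hx : x.norm = (k : ℤ) ^ 2) :
    (nu r x).natAbs + 2 * ee p ≤ 2 * vk k p ∧ ∃ c, nu r x = 2 * c := by
  have hk0 : (k : ℤ) ≠ 0 := by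
    have : (1 : ℤ) ≤ k := by exact_mod_cast hk
    omega
  have hx0 : x ≠ 0 := by
    rintro rfl
    rw [Zsqrtd.norm_zero] at hx
    exact hk0 (pow_eq_zero_iff (by norm_num) |>.mp hx.symm)
  have h1 := val_sum hk r hx0
  have hkp : ((k : ℤ) : ℤ_[p]) ≠ 0 := by exact_mod_cast hk0
  have h2 : (((x.norm : ℤ) : ℤ_[p])).valuation = 2 * vk k p := by
    rw [hx]
    have : (((k : ℤ) ^ 2 : ℤ) : ℤ_[p]) = ((k : ℤ) : ℤ_[p]) ^ 2 := by push_cast; ring
    rw [this, PadicInt.valuation_pow]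
    rfl
  have h3 : ee p ≤ (phi r x).valuation ∧ ee p ≤ (phi r (star x)).valuation := by
    rcases Nat.eq_zero_or_pos (ee p) with h0 | h0
    · rw [h0]
      exact ⟨Nat.zero_le _, Nat.zero_le _⟩
    have he : ee p = 1 := le_antisymm ee_le h0
    have e2 : (p : ℤ_[p]) ∣ 2 := by
      have : (p : ℤ_[p]) ^ 1 ∣ 2 := (dvd_iff_le two_ne 1).mpr (by
        change 1 ≤ ee p
        omega)
      rwa [pow_one] at this
    have a1 : (p : ℤ_[p]) ∣ phi r x - phi r (star x) := by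
      rw [phi_apply, phi_star]
      have e : (x.re : ℤ_[p]) + x.im * r.s - ((x.re : ℤ_[p]) - x.im * r.s) =
          2 * (x.im * r.s) := by ring
      rw [e]
      exact e2.mul_right _
    have a2 : (p : ℤ_[p]) ∣ phi r x * phi r (star x) := by
      rw [phi_mul_star, hx]
      have : (p : ℤ_[p]) ∣ ((k : ℤ) : ℤ_[p]) := by
        have h4 : (p : ℤ_[p]) ^ 1 ∣ ((k : ℤ) : ℤ_[p]) := by
          rw [PadicInt.pow_p_dvd_int_iff, pow_one]
          exact hpk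
        rwa [pow_one] at h4
      push_cast
      push_cast at this
      exact this.pow (by norm_num)
    have a3 : (p : ℤ_[p]) ∣ phi r x ∧ (p : ℤ_[p]) ∣ phi r (star x) := by
      rcases PadicInt.prime_p.dvd_or_dvd a2 with h | h
      · exact ⟨h, (dvd_sub_right h).mp a1⟩
      · exact ⟨(dvd_sub_left h).mp a1, h⟩
    rw [he]
    constructor
    · rw [← dvd_iff_le (phi_ne hk r hx0), pow_one]
      exact a3.1
    · rw [← dvd_iff_le (phi_ne hk r (star_ne hx0)), pow_one]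
      exact a3.2
  unfold nu
  exact ⟨by omega, (vk k p : ℤ) - (phi r (star x)).valuation, by omega⟩

theorem val_near (r : Root k p) (m : ℤ) (hm : (p : ℤ) ^ (1 + ee p) ∣ m) :
    ((m : ℤ_[p]) + 1 + r.s) ≠ 0 ∧ (((m : ℤ_[p]) + 1 + r.s)).valuation = ee p := by
  have hm' : (p : ℤ_[p]) ^ (1 + ee p) ∣ (m : ℤ_[p]) := (PadicInt.pow_p_dvd_int_iff _ _).mpr hm
  have h1 : (p : ℤ_[p]) ^ (1 + ee p) ∣ ((m : ℤ_[p]) + 1 + r.s) - 2 := by
    have := dvd_add hm' r.one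
    convert this using 1
    ring
  have e2 : ((2 : ℤ_[p])).valuation = ee p := rfl
  have h0 : ((m : ℤ_[p]) + 1 + r.s) ≠ 0 := by
    intro h
    rw [h, zero_sub, dvd_neg, dvd_iff_le two_ne, e2] at h1
    omega
  refine ⟨h0, le_antisymm ?_ ?_⟩
  · by_contra hcon
    have h2 : (p : ℤ_[p]) ^ (1 + ee p) ∣ ((m : ℤ_[p]) + 1 + r.s) := (dvd_iff_le h0 _).mpr (by omega)
    have h3 := (dvd_sub_right h2).mp h1
    rw [dvd_iff_le two_ne, e2] at h3
    omega
  · rw [← dvd_iff_le h0]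
    have h2 : (p : ℤ_[p]) ^ (ee p) ∣ 2 := (dvd_iff_le two_ne _).mpr e2.ge
    have h3 : (p : ℤ_[p]) ^ (ee p) ∣ ((m : ℤ_[p]) + 1 + r.s) - 2 :=
      (pow_dvd_pow _ (by omega)).trans h1
    have := dvd_add h3 h2
    rwa [sub_add_cancel] at this

theorem nu_one_root (hk : 1 ≤ k) (r : Root k p) :
    nu r (⟨1, 1⟩ : ℤ√((k : ℤ) ^ 2 + 1)) = 2 * (ee p : ℤ) - 2 * (vk k p : ℤ) := by
  have hk0 : (k : ℤ) ≠ 0 := by
    have : (1 : ℤ) ≤ k := by exact_mod_cast hk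
    omega
  have hx0 : (⟨1, 1⟩ : ℤ√((k : ℤ) ^ 2 + 1)) ≠ 0 := by
    intro h
    have := congrArg Zsqrtd.re h
    simp at this
  have h1 := val_sum hk r hx0
  have h2 : ((((⟨1, 1⟩ : ℤ√((k : ℤ) ^ 2 + 1)).norm : ℤ) : ℤ_[p])).valuation = 2 * vk k p := by
    have e : (⟨1, 1⟩ : ℤ√((k : ℤ) ^ 2 + 1)).norm = -(k : ℤ) ^ 2 := by
      rw [Zsqrtd.norm_def]
      ring
    rw [e]
    have : ((-(k : ℤ) ^ 2 : ℤ) : ℤ_[p]) = (-1) * ((k : ℤ) : ℤ_[p]) ^ 2 := by push_cast; ring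
    have hkp : ((k : ℤ) : ℤ_[p]) ^ 2 ≠ 0 := pow_ne_zero 2 (by exact_mod_cast hk0)
    rw [this, PadicInt.valuation_mul (by norm_num) hkp, PadicInt.valuation_pow]
    have h3 : ((-1 : ℤ_[p])).valuation = 0 := by
      have h4 : ((-1 : ℤ_[p])).valuation + ((-1 : ℤ_[p])).valuation = 0 := by
        rw [← PadicInt.valuation_mul (by norm_num) (by norm_num)]
        norm_num
      omega
    rw [h3, zero_add]
    rfl
  have h3 : (phi r (⟨1, 1⟩ : ℤ√((k : ℤ) ^ 2 + 1))).valuation = ee p := by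
    have := (val_near r 0 (dvd_zero _)).2
    rw [phi_apply]
    convert this using 2
    push_cast
    ring
  unfold nu
  omega

theorem nu_gamma (hk : 1 ≤ k) (hpk : (p : ℤ) ^ (1 + ee p) ∣ (k : ℤ)) (r : Root k p) :
    nu r (⟨(k : ℤ) + 1, 1⟩ : ℤ√((k : ℤ) ^ 2 + 1)) = (ee p : ℤ) - (vk k p : ℤ) := by
  have hk1 : (1 : ℤ) ≤ k := by exact_mod_cast hk
  have hk0 : (k : ℤ) ≠ 0 := by omega
  have hx0 : (⟨(k : ℤ) + 1, 1⟩ : ℤ√((k : ℤ) ^ 2 + 1)) ≠ 0 := by
    intro h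
    have := congrArg Zsqrtd.im h
    simp at this
  have h1 := val_sum hk r hx0
  have h2 : ((((⟨(k : ℤ) + 1, 1⟩ : ℤ√((k : ℤ) ^ 2 + 1)).norm : ℤ) : ℤ_[p])).valuation =
      ee p + vk k p := by
    have e : (⟨(k : ℤ) + 1, 1⟩ : ℤ√((k : ℤ) ^ 2 + 1)).norm = 2 * (k : ℤ) := by
      rw [Zsqrtd.norm_def]
      ring
    rw [e]
    have : ((2 * (k : ℤ) : ℤ) : ℤ_[p]) = 2 * ((k : ℤ) : ℤ_[p]) := by push_cast; ring
    rw [this, PadicInt.valuation_mul two_ne (by exact_mod_cast hk0)]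
    rfl
  have h3 : (phi r (⟨(k : ℤ) + 1, 1⟩ : ℤ√((k : ℤ) ^ 2 + 1))).valuation = ee p := by
    have := (val_near r (k : ℤ) hpk).2
    rw [phi_apply]
    convert this using 2
    push_cast
    ring
  unfold nu
  omega

end padic

end Pool.Agent.Lib.MP_b40da5_nt_h5
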