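import Pool.Agent.Lib.MP_b40da5_nt_h5.Lat3
import Pool.Agent.Lib.MP_b40da5_nt_h5.Val
import Pool.Agent.Lib.MP_b40da5_nt_h5.Small2
import Pool.Agent.Lib.MP_b40da5_nt_h5.Count

/-!
# The lattice of principal ideals supported on the primes of `k`
-/

set_option autoImplicit false

namespace Pool.Agent.Lib.MP_b40da5_nt_h5

open Pool.Agent.Lib.MP_b40da5_nt

/-- `k` if `k` is odd, `k / 2` if `k` is even -/
def kk (k : ℕ) : ℕ := if Even k then k / 2 else k

/-- `1` if `k` is odd, `4` if `k` is even -/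
def cc (k : ℕ) : ℕ := if Even k then 4 else 1

/-- the primes dividing `kk k` -/
abbrev Idx (k : ℕ) : Type := {p : ℕ // p ∈ (kk k).primeFactors}

instance (k : ℕ) (i : Idx k) : Fact (i.1.Prime) := ⟨Nat.prime_of_mem_primeFactors i.2⟩

/-- the primes -/
def PP (k : ℕ) (i : Idx k) : ℕ := i.1

/-- the exponents -/
def aa (k : ℕ) (i : Idx k) : ℕ := (kk k).factorization i.1

theorem ee_eq (p : ℕ) [hp : Fact p.Prime] : ee p = Nat.factorization 2 p := by
  have key : ∀ n, n ≤ ee p ↔ n ≤ Nat.factorization 2 p := by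
    intro n
    have h1 : ee p = (((2 : ℤ) : ℤ_[p])).valuation := by
      unfold ee
      norm_num
    rw [h1, val_int (by norm_num), ← hp.out.pow_dvd_iff_le_factorization (by norm_num)]
    exact_mod_cast Iff.rfl
  exact le_antisymm ((key _).mp le_rfl) ((key _).mpr le_rfl)

theorem vk_eq {k : ℕ} (hk : k ≠ 0) (p : ℕ) [hp : Fact p.Prime] : vk k p = k.factorization p := by
  have key : ∀ n, n ≤ vk k p ↔ n ≤ k.factorization p := by
    intro n
    unfold vk
    rw [val_int (by exact_mod_cast hk), ← hp.out.pow_dvd_iff_le_factorization hk]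
    exact_mod_cast Iff.rfl
  exact le_antisymm ((key _).mp le_rfl) ((key _).mpr le_rfl)

theorem kk_ne {k : ℕ} (hk : 2 ≤ k) : kk k ≠ 0 := by
  unfold kk
  split_ifs with h
  · obtain ⟨m, hm⟩ := h
    omega
  · omega

theorem even_eq {k : ℕ} (h : Even k) : k = 2 * kk k := by
  unfold kk
  rw [if_pos h]
  obtain ⟨m, hm⟩ := h
  omega

theorem vk_sub {k : ℕ} (hk : 2 ≤ k) (i : Idx k) : vk k i.1 = ee i.1 + aa k i ∧ 1 ≤ aa k i := by
  have hp : i.1.Prime := Nat.prime_of_mem_primeFactors i.2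
  have ha : 1 ≤ aa k i := by
    unfold aa
    exact (hp.dvd_iff_one_le_factorization (kk_ne hk)).mp (Nat.dvd_of_mem_primeFactors i.2)
  refine ⟨?_, ha⟩
  rw [vk_eq (by omega), ee_eq]
  by_cases h : Even k
  · have e : k.factorization i.1 = (2 * kk k).factorization i.1 :=
      congrArg (fun m : ℕ => m.factorization i.1) (even_eq h)
    rw [e, Nat.factorization_mul (by norm_num) (kk_ne hk)]
    rfl
  · have h1 : kk k = k := by
      unfold kk
      rw [if_neg h]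
    have h2 : i.1 ≠ 2 := by
      intro h2
      have h3 := Nat.dvd_of_mem_primeFactors i.2
      rw [h2, h1] at h3
      exact h (even_iff_two_dvd.mpr h3)
    rw [← ee_eq, ee_odd h2]
    have e : aa k i = k.factorization i.1 := congrArg (fun m : ℕ => m.factorization i.1) h1
    omega

theorem pow_dvd_k {k : ℕ} (hk : 2 ≤ k) (i : Idx k) : ((i.1 : ℕ) : ℤ) ^ (1 + ee i.1) ∣ (k : ℤ) := by
  have h := vk_sub hk i
  rw [← val_int (p := i.1) (by exact_mod_cast (by omega : k ≠ 0))]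
  change 1 + ee i.1 ≤ vk k i.1
  omega

theorem dvd_k {k : ℕ} (hk : 2 ≤ k) (i : Idx k) : ((i.1 : ℕ) : ℤ) ∣ (k : ℤ) :=
  (dvd_pow_self _ (by omega)).trans (pow_dvd_k hk i)

/-- the chosen roots -/
noncomputable def rt {k : ℕ} (hk : 2 ≤ k) (i : Idx k) : Root k i.1 :=
  Classical.choice (exists_root (by omega) (pow_dvd_k hk i))

/-- the vector of valuations -/
noncomputable def nuv {k : ℕ} (hk : 2 ≤ k) (x : ℤ√((k : ℤ) ^ 2 + 1)) : Idx k → ℤ :=
  fun i => nu (rt hk i) x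

/-- nonzero elements whose norm is composed of primes dividing `k` -/
def Good {k : ℕ} (x : ℤ√((k : ℤ) ^ 2 + 1)) : Prop :=
  x ≠ 0 ∧ ∀ l : ℕ, l.Prime → (l : ℤ) ∣ x.norm → l ∣ k

theorem mod8 (x y c : ℤ) (h : (8 : ℤ) ∣ x * x - ((2 * (2 * c + 1)) ^ 2 + 1) * y * y) :
    (2 : ℤ) ∣ x ∧ (2 : ℤ) ∣ y := by
  obtain ⟨e, he⟩ := h
  rcases Int.even_or_odd' x with ⟨r, hr | hr⟩ <;> rcases Int.even_or_odd' y with ⟨s, hs | hs⟩
  · exact ⟨⟨r, hr⟩, ⟨s, hs⟩⟩
  · exfalso
    rw [hr, hs] at he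
    ring_nf at he
    omega
  · exfalso
    rw [hr, hs] at he
    ring_nf at he
    omega
  · exfalso
    rw [hr, hs] at he
    obtain ⟨r', hr'⟩ : ∃ r', r * (r + 1) = 2 * r' := by
      rcases Int.even_mul_succ_self r with ⟨w, hw⟩
      exact ⟨w, by omega⟩
    obtain ⟨s', hs'⟩ : ∃ s', s * (s + 1) = 2 * s' := by
      rcases Int.even_mul_succ_self s with ⟨w, hw⟩
      exact ⟨w, by omega⟩
    obtain ⟨c', hc'⟩ : ∃ c', c * (c + 1) = 2 * c' := by
      rcases Int.even_mul_succ_self c with ⟨w, hw⟩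
      exact ⟨w, by omega⟩
    have e1 : (2 * r + 1) * (2 * r + 1) = 8 * r' + 1 := by linear_combination 4 * hr'
    have e2 : (2 * s + 1) * (2 * s + 1) = 8 * s' + 1 := by linear_combination 4 * hs'
    have e3 : (2 * (2 * c + 1)) ^ 2 = 32 * c' + 4 := by linear_combination 16 * hc'
    have e4 : (2 * r + 1) * (2 * r + 1) - ((2 * (2 * c + 1)) ^ 2 + 1) * (2 * s + 1) *
        (2 * s + 1) = 8 * r' + 1 - (32 * c' + 5) * (8 * s' + 1) := by
      rw [e1, e3]
      linear_combination (-(32 * c' + 5)) * e2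
    rw [e4] at he
    ring_nf at he
    omega

section

variable {k : ℕ} (hk : 2 ≤ k)

theorem Good.mul (hk : 2 ≤ k) {x y : ℤ√((k : ℤ) ^ 2 + 1)} (hx : Good x) (hy : Good y) :
    Good (x * y) := by
  refine ⟨?_, fun l hl h => ?_⟩
  · intro h
    have h1 := congrArg Zsqrtd.norm h
    rw [Zsqrtd.norm_mul, Zsqrtd.norm_zero] at h1
    rcases mul_eq_zero.mp h1 with h2 | h2
    · exact norm_ne (by omega) hx.1 h2
    · exact norm_ne (by omega) hy.1 h2
  · rw [Zsqrtd.norm_mul] at h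
    rcases (Nat.prime_iff_prime_int.mp hl).dvd_or_dvd h with h1 | h1
    · exact hx.2 l hl h1
    · exact hy.2 l hl h1

theorem Good.star {x : ℤ√((k : ℤ) ^ 2 + 1)} (hx : Good x) : Good (star x) := by
  refine ⟨star_ne hx.1, fun l hl h => ?_⟩
  rw [Zsqrtd.norm_conj] at h
  exact hx.2 l hl h

theorem good_unit {x : ℤ√((k : ℤ) ^ 2 + 1)} (h : x.norm = 1 ∨ x.norm = -1) : Good x := by
  refine ⟨?_, fun l hl hd => ?_⟩
  · rintro rfl
    rcases h with h | h <;> simp at h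
  · exfalso
    have h4 : (l : ℤ) ∣ 1 := by
      rcases h with h | h
      · rwa [h] at hd
      · rw [h] at hd
        exact (dvd_neg).mp hd
    have h5 : l ∣ 1 := by exact_mod_cast h4
    exact hl.one_lt.ne' (Nat.dvd_one.mp h5)

theorem nuv_mul {x y : ℤ√((k : ℤ) ^ 2 + 1)} (hx : x ≠ 0) (hy : y ≠ 0) :
    nuv hk (x * y) = nuv hk x + nuv hk y := by
  funext i
  exact nu_mul (by omega) _ hx hy

theorem nuv_star (x : ℤ√((k : ℤ) ^ 2 + 1)) : nuv hk (star x) = -nuv hk x := by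
  funext i
  exact nu_star _ _

theorem nuv_int (m : ℤ) : nuv hk (m : ℤ√((k : ℤ) ^ 2 + 1)) = 0 := by
  funext i
  exact nu_int _ _

theorem nuv_unit {x : ℤ√((k : ℤ) ^ 2 + 1)} (h : x.norm = 1 ∨ x.norm = -1) : nuv hk x = 0 := by
  funext i
  exact nu_unit (by omega) _ h

/-- the lattice -/
def LL : AddSubgroup (Idx k → ℤ) where
  carrier := {z | ∃ x, Good x ∧ nuv hk x = z}
  zero_mem' := ⟨1, good_unit (Or.inl Zsqrtd.norm_one), nuv_unit hk (Or.inl Zsqrtd.norm_one)⟩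
  add_mem' := by
    rintro _ _ ⟨x, hx, rfl⟩ ⟨y, hy, rfl⟩
    exact ⟨x * y, hx.mul hk hy, nuv_mul hk hx.1 hy.1⟩
  neg_mem' := by
    rintro _ ⟨x, hx, rfl⟩
    exact ⟨star x, hx.star, nuv_star hk x⟩

/-- division by the content -/
theorem reduce {x : ℤ√((k : ℤ) ^ 2 + 1)} (hx : Good x) : ∃ (m : ℤ) (y : ℤ√((k : ℤ) ^ 2 + 1)),
    m ≠ 0 ∧ x = (m : ℤ√((k : ℤ) ^ 2 + 1)) * y ∧ Good y ∧ nuv hk y = nuv hk x ∧
    ∀ p : ℕ, p.Prime → ¬ ((p : ℤ) ∣ y.re ∧ (p : ℤ) ∣ y.im) := by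
  have hg : 0 < Int.gcd x.re x.im := by
    rw [Nat.pos_iff_ne_zero]
    intro h
    rw [Int.gcd_eq_zero_iff] at h
    exact hx.1 (Zsqrtd.ext h.1 h.2)
  obtain ⟨y, hy, hc⟩ := Zsqrtd.exists_coprime_of_gcd_pos hg
  have hm0 : ((Int.gcd x.re x.im : ℕ) : ℤ) ≠ 0 := by exact_mod_cast hg.ne'
  have hy0 : y ≠ 0 := by
    rintro rfl
    rw [mul_zero] at hy
    exact hx.1 hy
  refine ⟨_, y, hm0, hy, ⟨hy0, fun l hl h => hx.2 l hl ?_⟩, ?_, ?_⟩
  · rw [hy, Zsqrtd.norm_mul]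
    exact h.mul_left _
  · have hm0' : (((Int.gcd x.re x.im : ℕ) : ℤ) : ℤ√((k : ℤ) ^ 2 + 1)) ≠ 0 := by
      exact_mod_cast hm0
    conv_rhs => rw [hy]
    rw [nuv_mul hk hm0' hy0, nuv_int, zero_add]
  · rintro p hp ⟨h1, h2⟩
    obtain ⟨u, v, huv⟩ := hc
    have h3 : (p : ℤ) ∣ 1 := by
      rw [← huv]
      exact dvd_add (h1.mul_left _) (h2.mul_left _)
    have h5 : p ∣ 1 := by exact_mod_cast h3
    exact hp.one_lt.ne' (Nat.dvd_one.mp h5)

/-- the norm of a primitive element -/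
theorem norm_dvd {y : ℤ√((k : ℤ) ^ 2 + 1)} (hy : Good y)
    (hp : ∀ p : ℕ, p.Prime → ¬ ((p : ℤ) ∣ y.re ∧ (p : ℤ) ∣ y.im)) :
    y.norm.natAbs ∣ cc k * wt (PP k) (nuv hk y) := by
  rw [Nat.dvd_iff_prime_pow_dvd_dvd]
  intro p n hpp hn
  rcases Nat.eq_zero_or_pos n with h0 | h0
  · rw [h0, pow_zero]
    exact one_dvd _
  have hn' : (p : ℤ) ^ n ∣ y.norm := by
    have := Int.natCast_dvd.mpr hn
    exact_mod_cast this
  have hpk : p ∣ k := hy.2 p hpp ((dvd_pow_self _ (by omega)).trans hn')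
  by_cases hmem : p ∈ (kk k).primeFactors
  · set i : Idx k := ⟨p, hmem⟩ with hi
    haveI : Fact p.Prime := ⟨hpp⟩
    have h1 : n ≤ (nu (rt hk i) y).natAbs + 2 * ee i.1 :=
      prim (by omega) (dvd_k hk i) (rt hk i) hy.1 (hp p hpp) n hn'
    have h2 : p ^ (2 * ee i.1) ∣ cc k := by
      by_cases h2 : p = 2
      · have h3 : Even k := even_iff_two_dvd.mpr (h2 ▸ hpk)
        have h4 : ee i.1 ≤ 1 := ee_le
        have h5 : cc k = 2 ^ 2 := by
          unfold cc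
          rw [if_pos h3]
          norm_num
        rw [h5, h2]
        exact pow_dvd_pow _ (by omega)
      · have h3 : ee i.1 = 0 := ee_odd (p := i.1) h2
        rw [h3, mul_zero, pow_zero]
        exact one_dvd _
    have h3 : p ^ (nu (rt hk i) y).natAbs ∣ wt (PP k) (nuv hk y) := by
      have : p ^ (nu (rt hk i) y).natAbs = PP k i ^ (nuv hk y i).natAbs := rfl
      rw [this]
      exact Finset.dvd_prod_of_mem (fun i => PP k i ^ (nuv hk y i).natAbs) (Finset.mem_univ i)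
    calc p ^ n ∣ p ^ (2 * ee i.1 + (nu (rt hk i) y).natAbs) := pow_dvd_pow _ (by omega)
      _ = p ^ (2 * ee i.1) * p ^ (nu (rt hk i) y).natAbs := pow_add _ _ _
      _ ∣ cc k * wt (PP k) (nuv hk y) := mul_dvd_mul h2 h3
  · -- `p = 2` and `k / 2` is odd
    have hkk : ¬ p ∣ kk k := by
      intro h
      exact hmem (Nat.mem_primeFactors.mpr ⟨hpp, h, kk_ne hk⟩)
    have hev : Even k := by
      by_contra h
      apply hkk
      unfold kk
      rw [if_neg h]
      exact hpk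
    have h2 := even_eq hev
    have hp2 : p = 2 := by
      rw [h2] at hpk
      rcases (Nat.Prime.dvd_mul hpp).mp hpk with h | h
      · exact (Nat.prime_dvd_prime_iff_eq hpp Nat.prime_two).mp h
      · exact absurd h hkk
    have hodd : kk k % 2 = 1 := by
      rw [hp2] at hkk
      omega
    have hc : cc k = 4 := by
      unfold cc
      rw [if_pos hev]
    have hle : n ≤ 2 := by
      by_contra hcon
      have h8 : (8 : ℤ) ∣ y.norm := by
        refine Dvd.dvd.trans ?_ hn'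
        rw [hp2]
        have : (8 : ℤ) = ((2 : ℕ) : ℤ) ^ 3 := by norm_num
        rw [this]
        exact pow_dvd_pow _ (by omega)
      rw [Zsqrtd.norm_def] at h8
      obtain ⟨c, hc⟩ : ∃ c : ℤ, (k : ℤ) = 2 * (2 * c + 1) := by
        refine ⟨((kk k / 2 : ℕ) : ℤ), ?_⟩
        have h5 : kk k = 2 * (kk k / 2) + 1 := by omega
        have h6 : ((kk k : ℕ) : ℤ) = 2 * ((kk k / 2 : ℕ) : ℤ) + 1 := by exact_mod_cast h5
        have h7 : (k : ℤ) = 2 * ((kk k : ℕ) : ℤ) := by exact_mod_cast h2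
        linarith
      have h9 := mod8 y.re y.im c (by rwa [← hc])
      exact hp 2 Nat.prime_two (by exact_mod_cast h9)
    rw [hc, hp2]
    have : (4 : ℕ) = 2 ^ 2 := by norm_num
    rw [this]
    exact (pow_dvd_pow _ hle).mul_right _

end

end Pool.Agent.Lib.MP_b40da5_nt_h5
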