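import Pool.Agent.Lib.MP_b40da5_nt_h5.Asm

/-!
# Minimal vectors of the lattice, and the final counts
-/

set_option autoImplicit false

namespace Pool.Agent.Lib.MP_b40da5_nt_h5

open Pool.Agent.Lib.MP_b40da5_nt

section

variable {k : ℕ} (hk : 2 ≤ k)

theorem norm_pow (x : ℤ√((k : ℤ) ^ 2 + 1)) :
    x.norm = x.re ^ 2 - ((k : ℤ) ^ 2 + 1) * x.im ^ 2 := by
  rw [Zsqrtd.norm_def]
  ring

theorem PP_pos (i : Idx k) : 1 ≤ PP k i := (Nat.prime_of_mem_primeFactors i.2).one_lt.le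

include hk in
theorem top_eq : top (PP k) (aa k) = kk k := by
  have h := Nat.prod_factorization_pow_eq_self (kk_ne hk)
  unfold top PP aa
  rw [Finset.prod_coe_sort (kk k).primeFactors (fun p => p ^ (kk k).factorization p)]
  exact h

/-- a primitive element with small norm and nonzero valuation vector -/
theorem big {y : ℤ√((k : ℤ) ^ 2 + 1)} (h : nuv hk y ≠ 0) : 2 * k ≤ y.norm.natAbs := by
  by_contra hcon
  rw [not_le] at hcon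
  have hk' : (2 : ℤ) ≤ k := by exact_mod_cast hk
  obtain ⟨g, u, v, huv, hu, hv⟩ := small_norm hk' _ y.re y.im rfl (by
    rw [← norm_pow]
    zify at hcon
    exact hcon)
  apply h
  have e : y = (g : ℤ√((k : ℤ) ^ 2 + 1)) * ⟨u, v⟩ := by
    ext
    · rw [hu]; simp
    · rw [hv]; simp
  have hn : (⟨u, v⟩ : ℤ√((k : ℤ) ^ 2 + 1)).norm = 1 ∨
      (⟨u, v⟩ : ℤ√((k : ℤ) ^ 2 + 1)).norm = -1 := by
    rw [norm_pow]
    exact huv
  by_cases hg : g = 0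
  · rw [e, hg, Int.cast_zero, zero_mul]
    have := nuv_int hk (k := k) 0
    rwa [Int.cast_zero] at this
  · rw [e, nuv_mul hk (by exact_mod_cast hg) (good_unit hn).1, nuv_int, nuv_unit hk hn, add_zero]

theorem nuv_gamma (i : Idx k) : nuv hk (⟨(k : ℤ) + 1, 1⟩ : ℤ√((k : ℤ) ^ 2 + 1)) i =
    -(aa k i : ℤ) := by
  have h1 := nu_gamma (by omega) (pow_dvd_k hk i) (rt hk i)
  have h2 := (vk_sub hk i).1
  change nu (rt hk i) _ = _
  rw [h1, h2]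
  push_cast
  ring

theorem nuv_one_root (i : Idx k) : nuv hk (⟨1, 1⟩ : ℤ√((k : ℤ) ^ 2 + 1)) i =
    -(2 * (aa k i : ℤ)) := by
  have h1 := nu_one_root (by omega) (rt hk i)
  have h2 := (vk_sub hk i).1
  change nu (rt hk i) _ = _
  rw [h1, h2]
  push_cast
  ring

/-- minimum, odd case -/
theorem min_odd (ho : ¬ Even k) : ∀ z ∈ LL hk, z ≠ 0 → top (PP k) (aa k) < wt (PP k) z := by
  rintro _ ⟨x, hx, rfl⟩ hz
  obtain ⟨m, y, hm, hxy, hy, hyn, hprim⟩ := reduce hk hx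
  have h1 := norm_dvd hk hy hprim
  have hc : cc k = 1 := by
    unfold cc
    rw [if_neg ho]
  rw [← hyn] at hz ⊢
  have h2 := big hk hz
  have hpos : 0 < wt (PP k) (nuv hk y) := Finset.prod_pos fun i _ => pow_pos (PP_pos i) _
  rw [hc, one_mul] at h1
  have h3 := Nat.le_of_dvd hpos h1
  rw [top_eq hk]
  have h4 : kk k = k := by
    unfold kk
    rw [if_neg ho]
  omega

/-- minimum, even case -/
theorem min_even (he : Even k) : ∀ z ∈ LL hk, z ≠ 0 → top (PP k) (aa k) ≤ wt (PP k) z ∧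
    (wt (PP k) z = top (PP k) (aa k) → z = hcor (aa k) ∨ z = -hcor (aa k)) := by
  rintro _ ⟨x, hx, rfl⟩ hz
  obtain ⟨m, y, hm, hxy, hy, hyn, hprim⟩ := reduce hk hx
  have h1 := norm_dvd hk hy hprim
  have hc : cc k = 4 := by
    unfold cc
    rw [if_pos he]
  have hk' : (2 : ℤ) ≤ k := by exact_mod_cast hk
  rw [← hyn] at hz ⊢
  have h2 := big hk hz
  have hpos : 0 < wt (PP k) (nuv hk y) := Finset.prod_pos fun i _ => pow_pos (PP_pos i) _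
  rw [hc] at h1
  have h3 := Nat.le_of_dvd (by omega) h1
  rw [top_eq hk]
  have h4 := even_eq he
  refine ⟨by omega, fun h5 => ?_⟩
  have h6 : y.norm.natAbs ≤ 2 * k := by omega
  rcases small_norm2 hk' _ y.re y.im rfl (by
    rw [← norm_pow]
    zify at h6
    exact h6) with ⟨g, u, v, huv, hu, hv⟩ | ⟨u, v, s, hs, huv, hu, hv⟩
  · exfalso
    apply hz
    have e : y = (g : ℤ√((k : ℤ) ^ 2 + 1)) * ⟨u, v⟩ := by
      ext
      · rw [hu]; simp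
      · rw [hv]; simp
    have hn : (⟨u, v⟩ : ℤ√((k : ℤ) ^ 2 + 1)).norm = 1 ∨
        (⟨u, v⟩ : ℤ√((k : ℤ) ^ 2 + 1)).norm = -1 := by
      rw [norm_pow]
      exact huv
    by_cases hg : g = 0
    · rw [e, hg, Int.cast_zero, zero_mul]
      have := nuv_int hk (k := k) 0
      rwa [Int.cast_zero] at this
    · rw [e, nuv_mul hk (by exact_mod_cast hg) (good_unit hn).1, nuv_int, nuv_unit hk hn,
        add_zero]
  · have hn : (⟨u, v⟩ : ℤ√((k : ℤ) ^ 2 + 1)).norm = 1 ∨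
        (⟨u, v⟩ : ℤ√((k : ℤ) ^ 2 + 1)).norm = -1 := by
      rw [norm_pow]
      exact huv
    have hg0 : (⟨(k : ℤ) + 1, 1⟩ : ℤ√((k : ℤ) ^ 2 + 1)) ≠ 0 := by
      intro h
      have := congrArg Zsqrtd.im h
      simp at this
    rcases hs with hs | hs
    · right
      have e : y = ⟨u, v⟩ * ⟨(k : ℤ) + 1, 1⟩ := by
        ext
        · rw [hu, hs, Zsqrtd.re_mul]
          ring
        · rw [hv, hs, Zsqrtd.im_mul]
          ring
      rw [e, nuv_mul hk (good_unit hn).1 hg0, nuv_unit hk hn, zero_add]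
      funext i
      rw [nuv_gamma, Pi.neg_apply]
      rfl
    · left
      have e : y = ⟨u, v⟩ * star (⟨(k : ℤ) + 1, 1⟩ : ℤ√((k : ℤ) ^ 2 + 1)) := by
        ext
        · rw [hu, hs, Zsqrtd.re_mul, Zsqrtd.re_star, Zsqrtd.im_star]
          ring
        · rw [hv, hs, Zsqrtd.im_mul, Zsqrtd.re_star, Zsqrtd.im_star]
          ring
      rw [e, nuv_mul hk (good_unit hn).1 (star_ne hg0), nuv_unit hk hn, zero_add, nuv_star]
      funext i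
      rw [Pi.neg_apply, nuv_gamma, neg_neg]
      rfl

theorem good_of_norm {x : ℤ√((k : ℤ) ^ 2 + 1)} (h0 : x ≠ 0)
    (h : x.norm ∣ 2 * (k : ℤ) ^ 2 ∧ (Even k ∨ x.norm ∣ (k : ℤ) ^ 2)) : Good x := by
  refine ⟨h0, fun l hl hd => ?_⟩
  rcases h.2 with h2 | h2
  · have h3 : (l : ℤ) ∣ 2 * (k : ℤ) ^ 2 := hd.trans h.1
    have h4 : l ∣ 2 * k ^ 2 := by exact_mod_cast h3
    rcases (Nat.Prime.dvd_mul hl).mp h4 with h5 | h5
    · rw [(Nat.prime_dvd_prime_iff_eq hl Nat.prime_two).mp h5]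
      exact even_iff_two_dvd.mp h2
    · exact hl.dvd_of_dvd_pow h5
  · have h3 : (l : ℤ) ∣ (k : ℤ) ^ 2 := hd.trans h2
    have h4 : l ∣ k ^ 2 := by exact_mod_cast h3
    exact hl.dvd_of_dvd_pow h4

theorem hcor_mem (he : Even k) : hcor (aa k) ∈ LL hk := by
  have hg0 : (⟨(k : ℤ) + 1, 1⟩ : ℤ√((k : ℤ) ^ 2 + 1)) ≠ 0 := by
    intro h
    have := congrArg Zsqrtd.im h
    simp at this
  refine ⟨star ⟨(k : ℤ) + 1, 1⟩, Good.star (good_of_norm hg0 ⟨?_, Or.inl he⟩), ?_⟩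
  · rw [norm_pow]
    exact ⟨k, by ring⟩
  · rw [nuv_star]
    funext i
    rw [Pi.neg_apply, nuv_gamma, neg_neg]
    rfl

theorem cor_mem : cor (aa k) ∈ LL hk := by
  have hg0 : (⟨1, 1⟩ : ℤ√((k : ℤ) ^ 2 + 1)) ≠ 0 := by
    intro h
    have := congrArg Zsqrtd.im h
    simp at this
  refine ⟨star ⟨1, 1⟩, Good.star (good_of_norm hg0 ⟨?_, Or.inr ?_⟩), ?_⟩
  · rw [norm_pow]
    exact ⟨-2, by ring⟩
  · rw [norm_pow]
    exact ⟨-1, by ring⟩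
  · rw [nuv_star]
    funext i
    rw [Pi.neg_apply, nuv_one_root, neg_neg]
    rfl

include hk in
theorem ne_of_norm {x : ℤ√((k : ℤ) ^ 2 + 1)} (hx : x.norm = (k : ℤ) ^ 2) : x ≠ 0 := by
  rintro rfl
  rw [Zsqrtd.norm_zero] at hx
  have : (k : ℤ) = 0 := pow_eq_zero_iff (by norm_num) |>.mp hx.symm
  have h2 : (2 : ℤ) ≤ k := by exact_mod_cast hk
  omega

include hk in
theorem good_of_sq {x : ℤ√((k : ℤ) ^ 2 + 1)} (hx : x.norm = (k : ℤ) ^ 2) : Good x :=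
  good_of_norm (ne_of_norm hk hx) ⟨by rw [hx]; exact ⟨2, by ring⟩, Or.inr (by rw [hx])⟩

/-- two normalised solutions with the same valuation vector are equal -/
theorem inj_core (hk3 : 3 ≤ k) {x₁ y₁ x₂ y₂ : ℤ}
    (e₁ : x₁ ^ 2 - ((k : ℤ) ^ 2 + 1) * y₁ ^ 2 = (k : ℤ) ^ 2)
    (e₂ : x₂ ^ 2 - ((k : ℤ) ^ 2 + 1) * y₂ ^ 2 = (k : ℤ) ^ 2)
    (h₁ : 0 ≤ y₁ ∧ y₁ < k ∧ (y₁ = 0 → 0 ≤ x₁)) (h₂ : 0 ≤ y₂ ∧ y₂ < k ∧ (y₂ = 0 → 0 ≤ x₂))
    (h : nuv hk (⟨x₁, y₁⟩ : ℤ√((k : ℤ) ^ 2 + 1)) = nuv hk (⟨x₂, y₂⟩ : ℤ√((k : ℤ) ^ 2 + 1))) :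
    y₁ = y₂ := by
  have hk' : (2 : ℤ) ≤ k := by exact_mod_cast hk
  set α : ℤ√((k : ℤ) ^ 2 + 1) := ⟨x₁, y₁⟩ with hα
  set β : ℤ√((k : ℤ) ^ 2 + 1) := ⟨x₂, y₂⟩ with hβ
  have n₁ : α.norm = (k : ℤ) ^ 2 := by
    rw [norm_pow]
    exact e₁
  have n₂ : β.norm = (k : ℤ) ^ 2 := by
    rw [norm_pow]
    exact e₂
  have g₁ := good_of_sq hk n₁
  have g₂ := good_of_sq hk n₂
  obtain ⟨m, y, hm, hxy, hy, hyn, hprim⟩ := reduce hk (g₁.mul hk g₂.star)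
  have h0 : nuv hk y = 0 := by
    rw [hyn, nuv_mul hk g₁.1 (star_ne g₂.1), nuv_star, h, add_neg_cancel]
  have h1 := norm_dvd hk hy hprim
  rw [h0] at h1
  have h2 : wt (PP k) (0 : Idx k → ℤ) = 1 := by
    unfold wt
    simp
  rw [h2, mul_one] at h1
  have h3 : cc k ≤ 4 := by
    unfold cc
    split_ifs <;> omega
  have h3' : 0 < cc k := by
    unfold cc
    split_ifs <;> omega
  have h4 := Nat.le_of_dvd h3' h1
  obtain ⟨g, u, v, huv, hu, hv⟩ := small_norm hk' _ y.re y.im rfl (by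
    rw [← norm_pow]
    have h5 : y.norm.natAbs < 2 * k := by omega
    zify at h5
    exact h5)
  refine eq_of_ratio hk e₁ e₂ h₁ h₂ (G := 2 * m * g) huv ?_ ?_
  · have := congrArg Zsqrtd.re hxy
    rw [Zsqrtd.re_mul, Zsqrtd.re_star, Zsqrtd.im_star] at this
    have e : ((m : ℤ√((k : ℤ) ^ 2 + 1)) * y).re = m * y.re := by simp
    rw [e, hu] at this
    linear_combination 2 * this
  · have := congrArg Zsqrtd.im hxy
    rw [Zsqrtd.im_mul, Zsqrtd.re_star, Zsqrtd.im_star] at this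
    have e : ((m : ℤ√((k : ℤ) ^ 2 + 1)) * y).im = m * y.im := by simp
    rw [e, hv] at this
    linear_combination 2 * this

/-- the opposite vector -/
theorem inj_core' (hk3 : 3 ≤ k) {x₁ y₁ x₂ y₂ : ℤ}
    (e₁ : x₁ ^ 2 - ((k : ℤ) ^ 2 + 1) * y₁ ^ 2 = (k : ℤ) ^ 2)
    (e₂ : x₂ ^ 2 - ((k : ℤ) ^ 2 + 1) * y₂ ^ 2 = (k : ℤ) ^ 2)
    (h₁ : 0 ≤ y₁ ∧ y₁ < k ∧ (y₁ = 0 → 0 ≤ x₁)) (h₂ : 0 < y₂ ∧ y₂ < k)
    (h : nuv hk (⟨x₁, y₁⟩ : ℤ√((k : ℤ) ^ 2 + 1)) = -nuv hk (⟨x₂, y₂⟩ : ℤ√((k : ℤ) ^ 2 + 1))) :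
    y₁ = y₂ := by
  refine inj_core hk hk3 e₁ (x₂ := -x₂) (by rw [neg_sq, e₂]) h₁
    ⟨h₂.1.le, h₂.2, fun h0 => by omega⟩ ?_
  have e : (⟨-x₂, y₂⟩ : ℤ√((k : ℤ) ^ 2 + 1)) =
      (-1) * star (⟨x₂, y₂⟩ : ℤ√((k : ℤ) ^ 2 + 1)) := by
    ext
    · simp
    · simp
  have hne : (⟨x₂, y₂⟩ : ℤ√((k : ℤ) ^ 2 + 1)) ≠ 0 := ne_of_norm hk (by
    rw [norm_pow]
    exact e₂)
  rw [e, nuv_mul hk (by norm_num) (star_ne hne), nuv_star, h,
    nuv_unit hk (x := -1) (Or.inl (by rw [Zsqrtd.norm_neg, Zsqrtd.norm_one])), zero_add]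

end

end Pool.Agent.Lib.MP_b40da5_nt_h5
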