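import Mathlib

/-!
# Lattice points in a box

`ι` is a finite set (the primes), `P i ≥ 1` the primes, `a i` the exponents, `w` the norm of a
vector of exponents, `K = ∏ P i ^ a i`.
-/

set_option autoImplicit false

namespace Pool.Agent.Lib.MP_b40da5_nt_h5

variable {ι : Type} [Fintype ι]

/-- the norm `∏ P i ^ |z i|` -/
def wt (P : ι → ℕ) (z : ι → ℤ) : ℕ := ∏ i, P i ^ (z i).natAbs

/-- `∏ P i ^ a i` -/
def top (P a : ι → ℕ) : ℕ := ∏ i, P i ^ a i

/-- the box -/
def Box (a : ι → ℕ) (z : ι → ℤ) : Prop := ∀ i, (z i).natAbs ≤ 2 * a i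

theorem wt_mul_le {P a : ι → ℕ} (hP : ∀ i, 1 ≤ P i) {x y : ι → ℤ}
    (h : ∀ i, (x i).natAbs + (y i).natAbs ≤ 2 * a i) : wt P x * wt P y ≤ top P a * top P a := by
  unfold wt top
  rw [← Finset.prod_mul_distrib, ← Finset.prod_mul_distrib]
  refine Finset.prod_le_prod' fun i _ => ?_
  rw [← pow_add, ← pow_add]
  exact Nat.pow_le_pow_right (hP i) (by have := h i; omega)

/-- The vectors of a lattice in the box are incongruent modulo two, up to sign. -/
theorem halves {P a : ι → ℕ} (hP : ∀ i, 1 ≤ P i) {z z' m : ι → ℤ} (hz : Box a z) (hz' : Box a z')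
    (hm : 2 • m = z + z') : wt P m * wt P (m - z') ≤ top P a * top P a := by
  apply wt_mul_le hP
  intro i
  have h1 := hz i
  have h2 := hz' i
  have h3 := congrFun hm i
  simp only [Pi.smul_apply, Pi.add_apply, nsmul_eq_mul, Nat.cast_ofNat] at h3
  simp only [Pi.sub_apply]
  omega

/-- three pairwise distinct nonzero vectors in `F_2 ^ n`, `n ≤ 2`, have sum zero -/
theorem three_sum {n : ℕ} (hn : n ≤ 2) (x y z : Fin n → ZMod 2) (hx : x ≠ 0) (hy : y ≠ 0)
    (hz : z ≠ 0) (hxy : x ≠ y) (hxz : x ≠ z) (hyz : y ≠ z) : x + y + z = 0 := by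
  have : n = 0 ∨ n = 1 ∨ n = 2 := by omega
  rcases this with rfl | rfl | rfl
  · exact absurd (Subsingleton.elim x 0) hx
  · revert x y z
    decide
  · revert x y z
    decide

/-- reduction modulo two of a lattice -/
theorem exists_red (Λ : AddSubgroup (ι → ℤ)) : ∃ (n : ℕ) (_ : n ≤ Fintype.card ι)
    (f : Λ →+ (Fin n → ZMod 2)), ∀ x : Λ, f x = 0 → ∃ m : Λ, 2 • m = x := by
  classical
  obtain ⟨n, b⟩ := Submodule.basisOfPid (Pi.basisFun ℤ ι) (AddSubgroup.toIntSubmodule Λ)
  have hn : n ≤ Fintype.card ι := by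
    have h1 := Module.finrank_eq_card_basis b
    rw [Fintype.card_fin] at h1
    have h2 := Submodule.finrank_le (AddSubgroup.toIntSubmodule Λ)
    rw [h1, Module.finrank_fintype_fun_eq_card] at h2
    exact h2
  refine ⟨n, hn, AddMonoidHom.mk' (fun x j => ((b.repr x j : ℤ) : ZMod 2)) ?_, ?_⟩
  · intro x y
    funext j
    have h1 : b.repr (x + y) = b.repr x + b.repr y := b.repr.map_add x y
    have h2 : b.repr (x + y) j = b.repr x j + b.repr y j := by
      rw [h1]
      rfl
    change ((b.repr (x + y) j : ℤ) : ZMod 2) = ((b.repr x j : ℤ) : ZMod 2) +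
      ((b.repr y j : ℤ) : ZMod 2)
    rw [h2, Int.cast_add]
  · intro x hx
    have h1 : ∀ j, ∃ c : ℤ, b.repr x j = 2 * c := by
      intro j
      have h2 : ((b.repr x j : ℤ) : ZMod 2) = 0 := congrFun hx j
      rw [ZMod.intCast_zmod_eq_zero_iff_dvd] at h2
      exact h2
    choose c hc using h1
    refine ⟨∑ j, c j • b j, ?_⟩
    have h3 := b.sum_repr x
    have h4 : (2 : ℕ) • (∑ j, c j • b j) = ∑ j, b.repr x j • b j := by
      rw [Finset.smul_sum]
      refine Finset.sum_congr rfl fun j _ => ?_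
      rw [hc j, mul_smul]
      simp only [two_smul]
    exact h4.trans h3

end Pool.Agent.Lib.MP_b40da5_nt_h5
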