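import Pool.Agent.Lib.MP_b40da5_nt_h5.Lat

/-!
# Lattice points in a box: the two counting theorems
-/

set_option autoImplicit false

namespace Pool.Agent.Lib.MP_b40da5_nt_h5

variable {ι : Type} [Fintype ι]

/-- the corner `(2 a i)` -/
def cor (a : ι → ℕ) : ι → ℤ := fun i => 2 * (a i : ℤ)

/-- half of the corner -/
def hcor (a : ι → ℕ) : ι → ℤ := fun i => (a i : ℤ)

theorem box_cor (a : ι → ℕ) : Box a (cor a) := by
  intro i
  simp only [cor]
  omega

theorem box_neg {a : ι → ℕ} {z : ι → ℤ} (h : Box a z) : Box a (-z) := by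
  intro i
  rw [Pi.neg_apply, Int.natAbs_neg]
  exact h i

theorem box_hcor (a : ι → ℕ) : Box a (hcor a) := by
  intro i
  simp only [hcor]
  omega

theorem wt_neg (P : ι → ℕ) (z : ι → ℤ) : wt P (-z) = wt P z := by
  unfold wt
  simp only [Pi.neg_apply, Int.natAbs_neg]

section odd

variable {P a : ι → ℕ} (hP : ∀ i, 1 ≤ P i) {Λ : AddSubgroup (ι → ℤ)}
  (hmin : ∀ z ∈ Λ, z ≠ 0 → top P a < wt P z)
include hP hmin

theorem two_small {x y : ι → ℤ} (hx : x ∈ Λ) (hy : y ∈ Λ)
    (h : ∀ i, (x i).natAbs + (y i).natAbs ≤ 2 * a i) : x = 0 ∨ y = 0 := by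
  by_contra hcon
  rw [not_or] at hcon
  have h1 := hmin x hx hcon.1
  have h2 := hmin y hy hcon.2
  have h3 := wt_mul_le hP h
  have h4 : top P a * top P a < wt P x * wt P y := Nat.mul_lt_mul'' h1 h2
  omega

theorem odd_ne {z z' m : ι → ℤ} (hz : Box a z) (hz' : Box a z') (hzΛ' : z' ∈ Λ) (hm : m ∈ Λ)
    (h : 2 • m = z + z') : z = z' ∨ z = -z' := by
  have hm' : m - z' ∈ Λ := Λ.sub_mem hm hzΛ'
  rcases two_small hP hmin hm hm' (fun i => by
    have h1 := hz i
    have h2 := hz' i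
    have h3 := congrFun h i
    simp only [Pi.smul_apply, Pi.add_apply, nsmul_eq_mul, Nat.cast_ofNat] at h3
    simp only [Pi.sub_apply]
    omega) with h0 | h0
  · right
    rw [h0, smul_zero] at h
    exact eq_neg_of_add_eq_zero_left h.symm
  · left
    have h1 : m = z' := sub_eq_zero.mp h0
    rw [h1, two_smul] at h
    exact (add_right_cancel h).symm

theorem odd_mixed {z : ι → ℤ} (hv : cor a ∈ Λ) (hz : z ∈ Λ) (hb : Box a z) (h0 : z ≠ 0)
    (h1 : z ≠ cor a) (h2 : z ≠ -cor a) : (∃ i, 0 < z i) ∧ ∃ i, z i < 0 := by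
  constructor
  · by_contra hcon
    push Not at hcon
    rcases two_small hP hmin hz (Λ.add_mem hz hv) (fun i => by
      have h3 := hb i
      have h4 := hcon i
      simp only [Pi.add_apply, cor]
      omega) with h | h
    · exact h0 h
    · exact h2 (eq_neg_of_add_eq_zero_left h)
  · by_contra hcon
    push Not at hcon
    rcases two_small hP hmin hz (Λ.sub_mem hz hv) (fun i => by
      have h3 := hb i
      have h4 := hcon i
      simp only [Pi.sub_apply, cor]
      omega) with h | h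
    · exact h0 h
    · exact h1 (sub_eq_zero.mp h)

/-- the sum of two points of the same sign pattern and of the corner is not twice a lattice
vector -/
theorem odd_triple {z₁ z₂ m : ι → ℤ} (h₁ : z₁ ∈ Λ) (h₂ : z₂ ∈ Λ) (hb₁ : Box a z₁)
    (hb₂ : Box a z₂) (hsame : ∀ i, 0 ≤ z₁ i * z₂ i) (hp₁ : ∃ i, 0 < z₁ i)
    (hp₂ : ∃ i, 0 < z₂ i) (hm : m ∈ Λ) (h : 2 • m = z₁ + z₂ + cor a) : False := by
  have hh : ∀ i, 2 * m i = z₁ i + z₂ i + 2 * (a i : ℤ) := by
    intro i
    have h3 := congrFun h i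
    simp only [Pi.smul_apply, Pi.add_apply, nsmul_eq_mul, Nat.cast_ofNat, cor] at h3
    exact h3
  rcases two_small hP hmin (Λ.sub_mem hm h₂) (Λ.sub_mem hm h₁) (fun i => by
      have h3 := hh i
      have h4 := hb₁ i
      have h5 := hb₂ i
      have h6 := hsame i
      simp only [Pi.sub_apply]
      rcases le_total 0 (z₁ i) with h7 | h7 <;> rcases le_total 0 (z₂ i) with h8 | h8
      · omega
      · have : z₁ i = 0 ∨ z₂ i = 0 := by
          rw [← mul_eq_zero]
          exact le_antisymm (mul_nonpos_of_nonneg_of_nonpos h7 h8) h6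
        omega
      · have : z₁ i = 0 ∨ z₂ i = 0 := by
          rw [← mul_eq_zero]
          exact le_antisymm (mul_nonpos_of_nonpos_of_nonneg h7 h8) h6
        omega
      · omega) with h0 | h0
  · obtain ⟨i, hi⟩ := hp₁
    have h3 := hh i
    have h4 := congrFun h0 i
    have h5 := hb₂ i
    simp only [Pi.sub_apply, Pi.zero_apply] at h4
    omega
  · obtain ⟨i, hi⟩ := hp₂
    have h3 := hh i
    have h4 := congrFun h0 i
    have h5 := hb₁ i
    simp only [Pi.sub_apply, Pi.zero_apply] at h4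
    omega

end odd

/-- with at most two coordinates two points of mixed sign have, up to sign, the same pattern -/
theorem same_pattern (hc : Fintype.card ι ≤ 2) {z₁ z₂ : ι → ℤ}
    (h₁ : (∃ i, 0 < z₁ i) ∧ ∃ i, z₁ i < 0) (h₂ : (∃ i, 0 < z₂ i) ∧ ∃ i, z₂ i < 0) :
    (∀ i, 0 ≤ z₁ i * z₂ i) ∨ ∀ i, 0 ≤ z₁ i * (-z₂) i := by
  obtain ⟨⟨p, hp⟩, q, hq⟩ := h₁
  obtain ⟨⟨r, hr⟩, s, hs⟩ := h₂
  have hpq : p ≠ q := by
    rintro rfl
    omega
  have hrs : r ≠ s := by
    rintro rfl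
    omega
  have hall : ∀ i, i = p ∨ i = q := by
    intro i
    by_contra hcon
    rw [not_or] at hcon
    have h3 : 2 < Fintype.card ι := Fintype.two_lt_card_iff.mpr
      ⟨i, p, q, hcon.1, hcon.2, hpq⟩
    omega
  rcases hall r with h | h
  · left
    subst h
    have : s = q := (hall s).resolve_left (fun h => hrs h.symm)
    subst this
    intro i
    rcases hall i with h | h
    · rw [h]
      positivity
    · rw [h]
      exact mul_nonneg_of_nonpos_of_nonpos hq.le hs.le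
  · right
    subst h
    have : s = p := (hall s).resolve_right (fun h => hrs h.symm)
    subst this
    intro i
    rw [Pi.neg_apply]
    rcases hall i with h | h
    · rw [h]
      exact mul_nonneg hp.le (by omega)
    · rw [h]
      exact mul_nonneg_of_nonpos_of_nonpos hq.le (by omega)

/-- strictly separated case, rank at most two -/
theorem lat_odd {P a : ι → ℕ} (hP : ∀ i, 1 ≤ P i) {Λ : AddSubgroup (ι → ℤ)}
    (hmin : ∀ z ∈ Λ, z ≠ 0 → top P a < wt P z) (hc : Fintype.card ι ≤ 2) (hv : cor a ∈ Λ)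
    {z₁ z₂ : ι → ℤ} (h₁ : z₁ ∈ Λ) (h₂ : z₂ ∈ Λ) (hb₁ : Box a z₁) (hb₂ : Box a z₂)
    (h₁0 : z₁ ≠ 0) (h₁1 : z₁ ≠ cor a) (h₁2 : z₁ ≠ -cor a)
    (h₂0 : z₂ ≠ 0) (h₂1 : z₂ ≠ cor a) (h₂2 : z₂ ≠ -cor a) : z₁ = z₂ ∨ z₁ = -z₂ := by
  by_contra hcon
  rw [not_or] at hcon
  obtain ⟨n, hn, f, hf⟩ := exists_red Λ
  have key : ∀ z z' : Λ, Box a (z : ι → ℤ) → Box a (z' : ι → ℤ) →
      (z : ι → ℤ) ≠ z' → (z : ι → ℤ) ≠ -z' → f z + f z' ≠ 0 := by
    intro z z' hz hz' hne hne' h0
    rw [← map_add] at h0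
    obtain ⟨m, hm⟩ := hf _ h0
    have hm' : 2 • (m : ι → ℤ) = (z : ι → ℤ) + z' := by
      have := congrArg Subtype.val hm
      simpa using this
    rcases odd_ne hP hmin hz hz' z'.2 m.2 hm' with h | h
    · exact hne h
    · exact hne' h
  have hb0 : Box a (0 : ι → ℤ) := fun i => by simp
  have ch2 : ∀ x y : Fin n → ZMod 2, x + y ≠ 0 → x ≠ y := by
    intro x y h h'
    apply h
    rw [h']
    funext j
    exact CharTwo.add_self_eq_zero _
  have hsum : f ⟨z₁, h₁⟩ + f ⟨z₂, h₂⟩ + f ⟨cor a, hv⟩ = 0 := by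
    apply three_sum (hn.trans hc)
    · have := key ⟨z₁, h₁⟩ 0 hb₁ hb0 h₁0 (by simpa using h₁0)
      simpa using this
    · have := key ⟨z₂, h₂⟩ 0 hb₂ hb0 h₂0 (by simpa using h₂0)
      simpa using this
    · have h0 : cor a ≠ 0 := by
        intro h0
        have : z₁ = 0 := by
          funext i
          have h3 := congrFun h0 i
          have h4 := hb₁ i
          simp only [cor, Pi.zero_apply] at h3
          simp only [Pi.zero_apply]
          omega
        exact h₁0 this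
      have := key ⟨cor a, hv⟩ 0 (box_cor a) hb0 h0 (by simpa using h0)
      simpa using this
    · exact ch2 _ _ (key _ _ hb₁ hb₂ hcon.1 hcon.2)
    · exact ch2 _ _ (key _ _ hb₁ (box_cor a) h₁1 h₁2)
    · exact ch2 _ _ (key _ _ hb₂ (box_cor a) h₂1 h₂2)
  rw [← map_add, ← map_add] at hsum
  obtain ⟨m, hm⟩ := hf _ hsum
  have hm' : 2 • (m : ι → ℤ) = z₁ + z₂ + cor a := by
    have := congrArg Subtype.val hm
    simpa using this
  have m₁ := odd_mixed hP hmin hv h₁ hb₁ h₁0 h₁1 h₁2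
  have m₂ := odd_mixed hP hmin hv h₂ hb₂ h₂0 h₂1 h₂2
  rcases same_pattern hc m₁ m₂ with hs | hs
  · exact odd_triple hP hmin h₁ h₂ hb₁ hb₂ hs m₁.1 m₂.1 m.2 hm'
  · refine odd_triple hP hmin h₁ (Λ.neg_mem h₂) hb₁ (box_neg hb₂) hs m₁.1 ?_
      (Λ.sub_mem m.2 h₂) ?_
    · obtain ⟨i, hi⟩ := m₂.2
      exact ⟨i, by rw [Pi.neg_apply]; omega⟩
    · rw [smul_sub, hm', two_smul]
      abel

end Pool.Agent.Lib.MP_b40da5_nt_h5
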