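import Pool.Agent.Lib.MP_b40da5_nt_h5.Lat2

/-!
# Lattice points in a box: the case of equality, and the counts for any number of coordinates
-/

set_option autoImplicit false
set_option linter.unusedSectionVars false

namespace Pool.Agent.Lib.MP_b40da5_nt_h5

variable {ι : Type} [Fintype ι]

theorem cor_eq (a : ι → ℕ) : cor a = hcor a + hcor a := by
  funext i
  simp only [cor, hcor, Pi.add_apply]
  ring

theorem add_self_zero {x : ι → ℤ} (h : x + x = 0) : x = 0 := by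
  funext i
  have := congrFun h i
  simp only [Pi.add_apply, Pi.zero_apply] at this ⊢
  omega

section even

variable {P a : ι → ℕ} (hP : ∀ i, 1 ≤ P i) {Λ : AddSubgroup (ι → ℤ)}
  (hmin : ∀ z ∈ Λ, z ≠ 0 → top P a ≤ wt P z ∧ (wt P z = top P a → z = hcor a ∨ z = -hcor a))
  (hh0 : hcor a ≠ 0) (hh : hcor a ∈ Λ)
include hP hmin

theorem two_small' {x y : ι → ℤ} (hx : x ∈ Λ) (hy : y ∈ Λ)
    (h : ∀ i, (x i).natAbs + (y i).natAbs ≤ 2 * a i) : x = 0 ∨ y = 0 ∨
      ((x = hcor a ∨ x = -hcor a) ∧ (y = hcor a ∨ y = -hcor a)) := by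
  by_contra hcon
  rw [not_or, not_or] at hcon
  obtain ⟨hx0, hy0, hxy⟩ := hcon
  have h1 := hmin x hx hx0
  have h2 := hmin y hy hy0
  have h3 := wt_mul_le hP h
  have hpos : 0 < top P a := Finset.prod_pos fun i _ => pow_pos (hP i) _
  have e1 : wt P x = top P a := by
    by_contra hne
    have : top P a < wt P x := lt_of_le_of_ne h1.1 (Ne.symm hne)
    have h4 : top P a * top P a < wt P x * wt P y :=
      Nat.mul_lt_mul_of_lt_of_le this h2.1 (lt_of_lt_of_le hpos h2.1)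
    omega
  have e2 : wt P y = top P a := by
    by_contra hne
    have : top P a < wt P y := lt_of_le_of_ne h2.1 (Ne.symm hne)
    have h4 : top P a * top P a < wt P x * wt P y :=
      Nat.mul_lt_mul_of_le_of_lt h1.1 this (lt_of_lt_of_le hpos h1.1)
    omega
  exact hxy ⟨h1.2 e1, h2.2 e2⟩

theorem even_ne {z z' m : ι → ℤ} (hz : Box a z) (hz' : Box a z') (hzΛ' : z' ∈ Λ) (hm : m ∈ Λ)
    (h : 2 • m = z + z') : z = z' ∨ z = -z' ∨ z = 0 ∨ z = cor a ∨ z = -cor a := by
  have hm' : m - z' ∈ Λ := Λ.sub_mem hm hzΛ'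
  have hz2 : z = m + (m - z') := by
    rw [two_smul] at h
    rw [← add_sub_assoc, h, add_sub_cancel_right]
  rcases two_small' hP hmin hm hm' (fun i => by
    have h1 := hz i
    have h2 := hz' i
    have h3 := congrFun h i
    simp only [Pi.smul_apply, Pi.add_apply, nsmul_eq_mul, Nat.cast_ofNat] at h3
    simp only [Pi.sub_apply]
    omega) with h0 | h0 | ⟨h0, h1⟩
  · right; left
    rw [h0, smul_zero] at h
    exact eq_neg_of_add_eq_zero_left h.symm
  · left
    have h1 : m = z' := sub_eq_zero.mp h0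
    rw [h1, two_smul] at h
    exact (add_right_cancel h).symm
  · right; right
    rcases h0 with h0 | h0 <;> rcases h1 with h1 | h1
    · right; left
      rw [cor_eq, hz2, h1, h0]
    · left
      rw [hz2, h1, h0, add_neg_cancel]
    · left
      rw [hz2, h1, h0, neg_add_cancel]
    · right; right
      rw [cor_eq, hz2, h1, h0, neg_add]

include hh0 hh

theorem even_h {z m : ι → ℤ} (hz : Box a z) (hm : m ∈ Λ) (h : 2 • m = z + hcor a) :
    z = hcor a ∨ z = -hcor a := by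
  have hm' : m - hcor a ∈ Λ := Λ.sub_mem hm hh
  rcases two_small' hP hmin hm hm' (fun i => by
    have h1 := hz i
    have h3 := congrFun h i
    simp only [Pi.smul_apply, Pi.add_apply, nsmul_eq_mul, Nat.cast_ofNat, hcor] at h3
    simp only [Pi.sub_apply, hcor]
    omega) with h0 | h0 | ⟨h0, h1⟩
  · right
    rw [h0, smul_zero] at h
    exact eq_neg_of_add_eq_zero_left h.symm
  · left
    have h1 : m = hcor a := sub_eq_zero.mp h0
    rw [h1, two_smul] at h
    exact (add_right_cancel h).symm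
  · exfalso
    apply hh0
    rcases h0 with h0 | h0 <;> rcases h1 with h1 | h1
    · rw [← h1, h0, sub_self]
    · rw [h0, sub_self] at h1
      exact neg_eq_zero.mp h1.symm
    · rw [h0] at h1
      apply add_self_zero
      funext i
      have := congrFun h1 i
      simp only [Pi.sub_apply, Pi.neg_apply, Pi.add_apply, Pi.zero_apply] at this ⊢
      omega
    · rw [h0] at h1
      apply neg_eq_zero.mp
      funext i
      have := congrFun h1 i
      simp only [Pi.sub_apply, Pi.neg_apply, Pi.zero_apply] at this ⊢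
      omega

theorem even_h0 {m : ι → ℤ} (hm : m ∈ Λ) (h : 2 • m = hcor a) : False := by
  have hz : Box a (0 : ι → ℤ) := fun i => by simp
  rcases even_h hP hmin hh0 hh hz hm (by rw [h, zero_add]) with h1 | h1
  · exact hh0 h1.symm
  · exact hh0 (neg_eq_zero.mp h1.symm)

omit hh in
theorem even_mixed {z : ι → ℤ} (hv : cor a ∈ Λ) (hz : z ∈ Λ) (hb : Box a z) (h0 : z ≠ 0)
    (h1 : z ≠ cor a) (h2 : z ≠ -cor a) (h3 : z ≠ hcor a) (h4 : z ≠ -hcor a) :
    (∃ i, 0 < z i) ∧ ∃ i, z i < 0 := by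
  constructor
  · by_contra hcon
    push Not at hcon
    rcases two_small' hP hmin hz (Λ.add_mem hz hv) (fun i => by
      have h3 := hb i
      have h4 := hcon i
      simp only [Pi.add_apply, cor]
      omega) with h | h | h
    · exact h0 h
    · exact h2 (eq_neg_of_add_eq_zero_left h)
    · exact h.1.elim h3 h4
  · by_contra hcon
    push Not at hcon
    rcases two_small' hP hmin hz (Λ.sub_mem hz hv) (fun i => by
      have h3 := hb i
      have h4 := hcon i
      simp only [Pi.sub_apply, cor]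
      omega) with h | h | h
    · exact h0 h
    · exact h1 (sub_eq_zero.mp h)
    · exact h.1.elim h3 h4

omit hh in
theorem even_triple {z₁ z₂ m : ι → ℤ} (h₁ : z₁ ∈ Λ) (h₂ : z₂ ∈ Λ) (hb₁ : Box a z₁)
    (hb₂ : Box a z₂) (hsame : ∀ i, 0 ≤ z₁ i * z₂ i) (he₁ : ∀ i, ∃ c, z₁ i = 2 * c)
    (he₂ : ∀ i, ∃ c, z₂ i = 2 * c) (hodd : ∃ i, ¬ ∃ c : ℤ, (a i : ℤ) = 2 * c)
    (hm : m ∈ Λ) (h : 2 • m = z₁ + z₂ + hcor a) : False := by
  have hh : ∀ i, 2 * m i = z₁ i + z₂ i + (a i : ℤ) := by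
    intro i
    have h3 := congrFun h i
    simp only [Pi.smul_apply, Pi.add_apply, nsmul_eq_mul, Nat.cast_ofNat, hcor] at h3
    exact h3
  rcases two_small' hP hmin (Λ.sub_mem hm h₂) (Λ.sub_mem hm h₁) (fun i => by
      have h3 := hh i
      have h4 := hb₁ i
      have h5 := hb₂ i
      have h6 := hsame i
      simp only [Pi.sub_apply]
      rcases le_total 0 (z₁ i) with h7 | h7 <;> rcases le_total 0 (z₂ i) with h8 | h8
      · omega
      · have : z₁ i = 0 ∨ z₂ i = 0 := by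
          rw [← mul_eq_zero]
          exact le_antisymm (mul_nonpos_of_nonneg_of_nonpos h7 h8) h6
        omega
      · have : z₁ i = 0 ∨ z₂ i = 0 := by
          rw [← mul_eq_zero]
          exact le_antisymm (mul_nonpos_of_nonpos_of_nonneg h7 h8) h6
        omega
      · omega) with h0 | h0 | ⟨h0, h1⟩
  · obtain ⟨i, hi⟩ := hodd
    apply hi
    have h3 := hh i
    have h4 := congrFun h0 i
    obtain ⟨c, hc⟩ := he₁ i
    obtain ⟨c', hc'⟩ := he₂ i
    simp only [Pi.sub_apply, Pi.zero_apply] at h4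
    exact ⟨c' - c, by omega⟩
  · obtain ⟨i, hi⟩ := hodd
    apply hi
    have h3 := hh i
    have h4 := congrFun h0 i
    obtain ⟨c, hc⟩ := he₁ i
    obtain ⟨c', hc'⟩ := he₂ i
    simp only [Pi.sub_apply, Pi.zero_apply] at h4
    exact ⟨c - c', by omega⟩
  · apply hh0
    funext i
    have h3 := hh i
    rcases h0 with h0 | h0 <;> rcases h1 with h1 | h1 <;>
    · have h4 := congrFun h0 i
      have h5 := congrFun h1 i
      simp only [Pi.sub_apply, Pi.neg_apply, hcor, Pi.zero_apply] at h4 h5 ⊢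
      omega

end even

/-- reduction modulo two -/
theorem ch2 {n : ℕ} (x y : Fin n → ZMod 2) (h : x + y ≠ 0) : x ≠ y := by
  intro h'
  apply h
  rw [h']
  funext j
  exact CharTwo.add_self_eq_zero _

/-- case of equality, rank at most two, no half corner in the box -/
theorem lat_even {P a : ι → ℕ} (hP : ∀ i, 1 ≤ P i) {Λ : AddSubgroup (ι → ℤ)}
    (hmin : ∀ z ∈ Λ, z ≠ 0 → top P a ≤ wt P z ∧
      (wt P z = top P a → z = hcor a ∨ z = -hcor a))
    (hc : Fintype.card ι ≤ 2) (hh : hcor a ∈ Λ)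
    (hodd : ∃ i, ¬ ∃ c : ℤ, (a i : ℤ) = 2 * c)
    {z₁ z₂ : ι → ℤ} (h₁ : z₁ ∈ Λ) (h₂ : z₂ ∈ Λ) (hb₁ : Box a z₁) (hb₂ : Box a z₂)
    (he₁ : ∀ i, ∃ c, z₁ i = 2 * c) (he₂ : ∀ i, ∃ c, z₂ i = 2 * c)
    (h₁0 : z₁ ≠ 0) (h₁1 : z₁ ≠ cor a) (h₁2 : z₁ ≠ -cor a)
    (h₂0 : z₂ ≠ 0) (h₂1 : z₂ ≠ cor a) (h₂2 : z₂ ≠ -cor a) : z₁ = z₂ ∨ z₁ = -z₂ := by
  by_contra hcon
  rw [not_or] at hcon
  have hh0 : hcor a ≠ 0 := by
    intro h0
    obtain ⟨i, hi⟩ := hodd
    apply hi
    have := congrFun h0 i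
    simp only [hcor, Pi.zero_apply] at this
    exact ⟨0, by omega⟩
  have hne : ∀ z : ι → ℤ, (∀ i, ∃ c, z i = 2 * c) → z ≠ hcor a ∧ z ≠ -hcor a := by
    intro z hz
    obtain ⟨i, hi⟩ := hodd
    obtain ⟨c, hc⟩ := hz i
    constructor
    · intro h
      apply hi
      have := congrFun h i
      simp only [hcor] at this
      exact ⟨c, by omega⟩
    · intro h
      apply hi
      have := congrFun h i
      simp only [hcor, Pi.neg_apply] at this
      exact ⟨-c, by omega⟩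
  have hv : cor a ∈ Λ := by
    rw [cor_eq]
    exact Λ.add_mem hh hh
  obtain ⟨n, hn, f, hf⟩ := exists_red Λ
  have key : ∀ z z' : Λ, Box a (z : ι → ℤ) → Box a (z' : ι → ℤ) →
      (z : ι → ℤ) ≠ z' → (z : ι → ℤ) ≠ -z' → (z : ι → ℤ) ≠ 0 → (z : ι → ℤ) ≠ cor a →
      (z : ι → ℤ) ≠ -cor a → f z + f z' ≠ 0 := by
    intro z z' hz hz' hne hne' hz0 hz1 hz2 h0
    rw [← map_add] at h0
    obtain ⟨m, hm⟩ := hf _ h0
    have hm' : 2 • (m : ι → ℤ) = (z : ι → ℤ) + z' := by
      have := congrArg Subtype.val hm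
      simpa using this
    rcases even_ne hP hmin hz hz' z'.2 m.2 hm' with h | h | h | h | h
    · exact hne h
    · exact hne' h
    · exact hz0 h
    · exact hz1 h
    · exact hz2 h
  have keyh : ∀ z : Λ, Box a (z : ι → ℤ) → (∀ i, ∃ c, (z : ι → ℤ) i = 2 * c) →
      f z + f ⟨hcor a, hh⟩ ≠ 0 := by
    intro z hz hz' h0
    rw [← map_add] at h0
    obtain ⟨m, hm⟩ := hf _ h0
    have hm' : 2 • (m : ι → ℤ) = (z : ι → ℤ) + hcor a := by
      have := congrArg Subtype.val hm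
      simpa using this
    rcases even_h hP hmin hh0 hh hz m.2 hm' with h | h
    · exact (hne _ hz').1 h
    · exact (hne _ hz').2 h
  have hb0 : Box a (0 : ι → ℤ) := fun i => by simp
  have hsum : f ⟨z₁, h₁⟩ + f ⟨z₂, h₂⟩ + f ⟨hcor a, hh⟩ = 0 := by
    apply three_sum (hn.trans hc)
    · have := key ⟨z₁, h₁⟩ 0 hb₁ hb0 h₁0 (by simpa using h₁0) h₁0 h₁1 h₁2
      simpa using this
    · have := key ⟨z₂, h₂⟩ 0 hb₂ hb0 h₂0 (by simpa using h₂0) h₂0 h₂1 h₂2
      simpa using this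
    · intro h0
      obtain ⟨m, hm⟩ := hf _ h0
      exact even_h0 hP hmin hh0 hh m.2 (by
        have := congrArg Subtype.val hm
        simpa using this)
    · exact ch2 _ _ (key _ _ hb₁ hb₂ hcon.1 hcon.2 h₁0 h₁1 h₁2)
    · exact ch2 _ _ (keyh _ hb₁ he₁)
    · exact ch2 _ _ (keyh _ hb₂ he₂)
  rw [← map_add, ← map_add] at hsum
  obtain ⟨m, hm⟩ := hf _ hsum
  have hm' : 2 • (m : ι → ℤ) = z₁ + z₂ + hcor a := by
    have := congrArg Subtype.val hm
    simpa using this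
  have m₁ := even_mixed hP hmin hh0 hv h₁ hb₁ h₁0 h₁1 h₁2 (hne _ he₁).1 (hne _ he₁).2
  have m₂ := even_mixed hP hmin hh0 hv h₂ hb₂ h₂0 h₂1 h₂2 (hne _ he₂).1 (hne _ he₂).2
  rcases same_pattern hc m₁ m₂ with hs | hs
  · exact even_triple hP hmin hh0 h₁ h₂ hb₁ hb₂ hs he₁ he₂ hodd m.2 hm'
  · refine even_triple hP hmin hh0 h₁ (Λ.neg_mem h₂) hb₁ (box_neg hb₂) hs he₁ ?_ hodd
      (Λ.sub_mem m.2 h₂) ?_
    · intro i
      obtain ⟨c, hc⟩ := he₂ i
      exact ⟨-c, by rw [Pi.neg_apply, hc]; ring⟩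
    · rw [smul_sub, hm', two_smul]
      abel

/-- counting, strictly separated case -/
theorem count_odd {P a : ι → ℕ} (hP : ∀ i, 1 ≤ P i) {Λ : AddSubgroup (ι → ℤ)}
    (hmin : ∀ z ∈ Λ, z ≠ 0 → top P a < wt P z) (S : Finset ℕ) (g : ℕ → Λ)
    (hb : ∀ y ∈ S, Box a (g y : ι → ℤ)) (h0 : ∀ y ∈ S, (g y : ι → ℤ) ≠ 0)
    (hinj : ∀ y ∈ S, ∀ z ∈ S, y ≠ z → (g y : ι → ℤ) ≠ g z ∧ (g y : ι → ℤ) ≠ -g z) :
    S.card + 1 ≤ 2 ^ Fintype.card ι := by
  classical
  obtain ⟨n, hn, f, hf⟩ := exists_red Λ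
  have key : ∀ z z' : Λ, Box a (z : ι → ℤ) → Box a (z' : ι → ℤ) →
      (z : ι → ℤ) ≠ z' → (z : ι → ℤ) ≠ -z' → f z + f z' ≠ 0 := by
    intro z z' hz hz' hne hne' h0
    rw [← map_add] at h0
    obtain ⟨m, hm⟩ := hf _ h0
    have hm' : 2 • (m : ι → ℤ) = (z : ι → ℤ) + z' := by
      have := congrArg Subtype.val hm
      simpa using this
    rcases odd_ne hP hmin hz hz' z'.2 m.2 hm' with h | h
    · exact hne h
    · exact hne' h
  have hb0 : Box a (0 : ι → ℤ) := fun i => by simp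
  have h1 : S.card ≤ ((Finset.univ : Finset (Fin n → ZMod 2)).erase 0).card := by
    apply Finset.card_le_card_of_injOn (fun y => f (g y))
    · intro y hy
      simp only [Finset.coe_erase, Finset.coe_univ, Set.mem_sdiff, Set.mem_univ, true_and,
        Set.mem_singleton_iff]
      have := key (g y) 0 (hb y hy) hb0 (h0 y hy) (by simpa using h0 y hy)
      simpa using this
    · intro y hy z hz hyz
      by_contra hne
      exact ch2 _ _ (key (g y) (g z) (hb y hy) (hb z hz) (hinj y hy z hz hne).1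
        (hinj y hy z hz hne).2) hyz
  rw [Finset.card_erase_of_mem (Finset.mem_univ _), Finset.card_univ, Fintype.card_fun,
    ZMod.card, Fintype.card_fin] at h1
  have h2 : 2 ^ n ≤ 2 ^ Fintype.card ι := Nat.pow_le_pow_right (by norm_num) hn
  have h3 : 0 < 2 ^ n := by positivity
  omega

/-- counting, case of equality -/
theorem count_even {P a : ι → ℕ} (hP : ∀ i, 1 ≤ P i) {Λ : AddSubgroup (ι → ℤ)}
    (hmin : ∀ z ∈ Λ, z ≠ 0 → top P a ≤ wt P z ∧
      (wt P z = top P a → z = hcor a ∨ z = -hcor a))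
    (hh : hcor a ∈ Λ) (hh0 : hcor a ≠ 0) (S : Finset ℕ) (g : ℕ → Λ)
    (hb : ∀ y ∈ S, Box a (g y : ι → ℤ)) (h0 : ∀ y ∈ S, (g y : ι → ℤ) ≠ 0)
    (hv1 : ∀ y ∈ S, (g y : ι → ℤ) ≠ cor a) (hv2 : ∀ y ∈ S, (g y : ι → ℤ) ≠ -cor a)
    (hh1 : ∀ y ∈ S, (g y : ι → ℤ) ≠ hcor a) (hh2 : ∀ y ∈ S, (g y : ι → ℤ) ≠ -hcor a)
    (hinj : ∀ y ∈ S, ∀ z ∈ S, y ≠ z → (g y : ι → ℤ) ≠ g z ∧ (g y : ι → ℤ) ≠ -g z) :
    S.card + 2 ≤ 2 ^ Fintype.card ι := by
  classical
  obtain ⟨n, hn, f, hf⟩ := exists_red Λ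
  have key : ∀ z z' : Λ, Box a (z : ι → ℤ) → Box a (z' : ι → ℤ) →
      (z : ι → ℤ) ≠ z' → (z : ι → ℤ) ≠ -z' → (z : ι → ℤ) ≠ 0 → (z : ι → ℤ) ≠ cor a →
      (z : ι → ℤ) ≠ -cor a → f z + f z' ≠ 0 := by
    intro z z' hz hz' hne hne' hz0 hz1 hz2 h0
    rw [← map_add] at h0
    obtain ⟨m, hm⟩ := hf _ h0
    have hm' : 2 • (m : ι → ℤ) = (z : ι → ℤ) + z' := by
      have := congrArg Subtype.val hm
      simpa using this
    rcases even_ne hP hmin hz hz' z'.2 m.2 hm' with h | h | h | h | h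
    · exact hne h
    · exact hne' h
    · exact hz0 h
    · exact hz1 h
    · exact hz2 h
  have hfh : f ⟨hcor a, hh⟩ ≠ 0 := by
    intro h0
    obtain ⟨m, hm⟩ := hf _ h0
    exact even_h0 hP hmin hh0 hh m.2 (by
      have := congrArg Subtype.val hm
      simpa using this)
  have hb0 : Box a (0 : ι → ℤ) := fun i => by simp
  have h1 : S.card ≤ (((Finset.univ : Finset (Fin n → ZMod 2)).erase 0).erase
      (f ⟨hcor a, hh⟩)).card := by
    apply Finset.card_le_card_of_injOn (fun y => f (g y))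
    · intro y hy
      rw [Finset.mem_coe, Finset.mem_erase, Finset.mem_erase]
      refine ⟨?_, ?_, Finset.mem_univ _⟩
      · apply ch2
        intro h2
        rw [← map_add] at h2
        obtain ⟨m, hm⟩ := hf _ h2
        have hm' : 2 • (m : ι → ℤ) = (g y : ι → ℤ) + hcor a := by
          have := congrArg Subtype.val hm
          simpa using this
        rcases even_h hP hmin hh0 hh (hb y hy) m.2 hm' with h | h
        · exact hh1 y hy h
        · exact hh2 y hy h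
      · have := key (g y) 0 (hb y hy) hb0 (h0 y hy) (by simpa using h0 y hy) (h0 y hy)
          (hv1 y hy) (hv2 y hy)
        simpa using this
    · intro y hy z hz hyz
      by_contra hne
      exact ch2 _ _ (key (g y) (g z) (hb y hy) (hb z hz) (hinj y hy z hz hne).1
        (hinj y hy z hz hne).2 (h0 y hy) (hv1 y hy) (hv2 y hy)) hyz
  rw [Finset.card_erase_of_mem (by
    rw [Finset.mem_erase]
    exact ⟨hfh, Finset.mem_univ _⟩), Finset.card_erase_of_mem (Finset.mem_univ _),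
    Finset.card_univ, Fintype.card_fun, ZMod.card, Fintype.card_fin] at h1
  have h2 : 2 ^ n ≤ 2 ^ Fintype.card ι := Nat.pow_le_pow_right (by norm_num) hn
  have h3 : 1 < 2 ^ n := by
    rcases Nat.eq_zero_or_pos n with h | h
    · exfalso
      apply hfh
      subst h
      exact Subsingleton.elim _ _
    · exact Nat.one_lt_two_pow (by omega)
  omega

end Pool.Agent.Lib.MP_b40da5_nt_h5
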