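import Pool.Agent.Lib.MP_b40da5_nt.Classes

/-!
# `x² - (k²+1) y² = k²` when `k` is a prime power times a small cofactor

Elements `x + y √d`, `d = k² + 1`, of norm smaller than `2 k` in absolute value are integers times
units (`small_norm`). If `k = p ^ a * s` and `α = x + y √d` has norm `k²`, then `p ^ i ∣ x + y`,
`p ^ (2 a - i) ∣ x - y` for some `i`; so `α`, `α (1 + √d)`, the products `α₁ α₂'` of two such
elements and `α² (1 + √d)` are divisible by large powers of `p`, and the quotients have small norm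
if `s` is small.
-/

set_option autoImplicit false

namespace Pool.Agent.Lib.MP_b40da5_nt_h5

open Pool.Agent.Lib.MP_b40da5_nt

theorem small_norm {k : ℤ} (hk : 2 ≤ k) : ∀ (n : ℕ) (x y : ℤ), y.natAbs = n →
    |x ^ 2 - (k ^ 2 + 1) * y ^ 2| < 2 * k →
    ∃ g u v : ℤ, (u ^ 2 - (k ^ 2 + 1) * v ^ 2 = 1 ∨ u ^ 2 - (k ^ 2 + 1) * v ^ 2 = -1) ∧
      x = g * u ∧ y = g * v := by
  intro n
  induction n using Nat.strong_induction_on with
  | _ n ih =>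
    intro x y hn h
    by_cases hy : y = 0
    · exact ⟨x, 1, 0, Or.inl (by ring), by ring, by rw [hy]; ring⟩
    obtain ⟨σ, hσ, X, hX0, hX⟩ : ∃ σ : ℤ, σ ^ 2 = 1 ∧ ∃ X, 0 ≤ X ∧ x = σ * X := by
      rcases le_total 0 x with h0 | h0
      · exact ⟨1, by norm_num, x, h0, by ring⟩
      · exact ⟨-1, by norm_num, -x, by linarith, by ring⟩
    obtain ⟨τ, hτ, Y, hY0, hY⟩ : ∃ τ : ℤ, τ ^ 2 = 1 ∧ ∃ Y, 1 ≤ Y ∧ y = τ * Y := by
      rcases lt_or_gt_of_ne hy with h0 | h0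
      · exact ⟨-1, by norm_num, -y, by omega, by ring⟩
      · exact ⟨1, by norm_num, y, by omega, by ring⟩
    have hx2 : x ^ 2 = X ^ 2 := by rw [hX, mul_pow, hσ, one_mul]
    have hy2 : y ^ 2 = Y ^ 2 := by rw [hY, mul_pow, hτ, one_mul]
    have hab : y.natAbs = Y.natAbs := by
      rw [Int.natAbs_eq_iff_sq_eq, hy2]
    rw [hx2, hy2, abs_lt] at h
    obtain ⟨h1, h2⟩ := h
    have hY2 : 1 ≤ Y ^ 2 := by nlinarith
    have h3 : (k - 1) * Y < X := by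
      refine lt_of_pow_lt_pow_left₀ 2 hX0 ?_
      have : 2 * k ≤ 2 * k * Y ^ 2 := by nlinarith
      nlinarith
    have h4 : X < (k + 1) * Y := by
      refine lt_of_pow_lt_pow_left₀ 2 (by positivity) ?_
      have : 2 * k ≤ 2 * k * Y ^ 2 := by nlinarith
      nlinarith
    have h5 : (X - k * Y).natAbs < n := by
      rw [← hn, hab]
      have e1 : |X - k * Y| < Y := by
        rw [abs_lt]
        constructor <;> nlinarith
      zify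
      rw [abs_of_nonneg (by linarith : (0 : ℤ) ≤ Y)]
      exact e1
    obtain ⟨g, u, v, huv, hu, hv⟩ := ih _ h5 ((k ^ 2 + 1) * Y - k * X) (X - k * Y) rfl (by
      have e : ((k ^ 2 + 1) * Y - k * X) ^ 2 - (k ^ 2 + 1) * (X - k * Y) ^ 2 =
          -(X ^ 2 - (k ^ 2 + 1) * Y ^ 2) := by ring
      rw [e, abs_neg, abs_lt]
      exact ⟨h1, h2⟩)
    refine ⟨g, σ * (k * u + (k ^ 2 + 1) * v), τ * (u + k * v), ?_, ?_, ?_⟩
    · have e : (σ * (k * u + (k ^ 2 + 1) * v)) ^ 2 - (k ^ 2 + 1) * (τ * (u + k * v)) ^ 2 =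
          -(u ^ 2 - (k ^ 2 + 1) * v ^ 2) := by
        rw [mul_pow, mul_pow, hσ, hτ]
        ring
      rw [e]
      rcases huv with h6 | h6
      · right; rw [h6]
      · left; rw [h6]; ring
    · have : X = k * (g * u) + (k ^ 2 + 1) * (g * v) := by rw [← hu, ← hv]; ring
      rw [hX, this]
      ring
    · have : Y = g * u + k * (g * v) := by rw [← hu, ← hv]; ring
      rw [hY, this]
      ring

/-- Two normalised solutions whose quotient is a rational number times a unit are equal. -/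
theorem eq_of_ratio {k : ℕ} (hk : 2 ≤ k) {x₁ y₁ x₂ y₂ : ℤ}
    (e₁ : x₁ ^ 2 - ((k : ℤ) ^ 2 + 1) * y₁ ^ 2 = (k : ℤ) ^ 2)
    (e₂ : x₂ ^ 2 - ((k : ℤ) ^ 2 + 1) * y₂ ^ 2 = (k : ℤ) ^ 2)
    (h₁ : 0 ≤ y₁ ∧ y₁ < k ∧ (y₁ = 0 → 0 ≤ x₁)) (h₂ : 0 ≤ y₂ ∧ y₂ < k ∧ (y₂ = 0 → 0 ≤ x₂))
    {G u v : ℤ}
    (huv : u ^ 2 - ((k : ℤ) ^ 2 + 1) * v ^ 2 = 1 ∨ u ^ 2 - ((k : ℤ) ^ 2 + 1) * v ^ 2 = -1)
    (hG1 : 2 * (x₁ * x₂ - ((k : ℤ) ^ 2 + 1) * (y₁ * y₂)) = G * u)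
    (hG2 : 2 * (x₂ * y₁ - x₁ * y₂) = G * v) : y₁ = y₂ := by
  have hk' : (2 : ℤ) ≤ k := by exact_mod_cast hk
  have hk4 : (0 : ℤ) < (k : ℤ) ^ 4 := by positivity
  have hN : G ^ 2 * (u ^ 2 - ((k : ℤ) ^ 2 + 1) * v ^ 2) = 4 * (k : ℤ) ^ 4 := by
    have e : G ^ 2 * (u ^ 2 - ((k : ℤ) ^ 2 + 1) * v ^ 2) =
        (G * u) ^ 2 - ((k : ℤ) ^ 2 + 1) * (G * v) ^ 2 := by ring
    rw [e, ← hG1, ← hG2]
    have : (2 * (x₁ * x₂ - ((k : ℤ) ^ 2 + 1) * (y₁ * y₂))) ^ 2 -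
        ((k : ℤ) ^ 2 + 1) * (2 * (x₂ * y₁ - x₁ * y₂)) ^ 2 =
        4 * ((x₁ ^ 2 - ((k : ℤ) ^ 2 + 1) * y₁ ^ 2) * (x₂ ^ 2 - ((k : ℤ) ^ 2 + 1) * y₂ ^ 2)) := by
      ring
    rw [this, e₁, e₂]
    ring
  rcases huv with huv | huv
  · rw [huv, mul_one] at hN
    have hG : G = 2 * (k : ℤ) ^ 2 ∨ G = -(2 * (k : ℤ) ^ 2) := by
      have : (G - 2 * (k : ℤ) ^ 2) * (G + 2 * (k : ℤ) ^ 2) = 0 := by linear_combination hN
      rcases mul_eq_zero.mp this with h | h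
      · left; linarith
      · right; linarith
    obtain ⟨c, hc, hGc⟩ : ∃ c : ℤ, c ^ 2 = 1 ∧ G = c * (2 * (k : ℤ) ^ 2) := by
      rcases hG with h | h
      · exact ⟨1, by norm_num, by rw [h]; ring⟩
      · exact ⟨-1, by norm_num, by rw [h]; ring⟩
    have hk2 : (2 * (k : ℤ) ^ 2) ≠ 0 := by positivity
    have hx : x₁ = x₂ * (c * u) + ((k : ℤ) ^ 2 + 1) * (y₂ * (c * v)) := by
      apply mul_left_cancel₀ hk2
      have h1 : 2 * (k : ℤ) ^ 2 * (x₂ * (c * u) + ((k : ℤ) ^ 2 + 1) * (y₂ * (c * v))) =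
          x₂ * (G * u) + ((k : ℤ) ^ 2 + 1) * (y₂ * (G * v)) := by rw [hGc]; ring
      rw [h1, ← hG1, ← hG2]
      linear_combination (-2 * x₁) * e₂
    have hy : y₁ = x₂ * (c * v) + y₂ * (c * u) := by
      apply mul_left_cancel₀ hk2
      have h1 : 2 * (k : ℤ) ^ 2 * (x₂ * (c * v) + y₂ * (c * u)) =
          x₂ * (G * v) + y₂ * (G * u) := by rw [hGc]; ring
      rw [h1, ← hG1, ← hG2]
      linear_combination (-2 * y₁) * e₂
    have := norm_unique hk ⟨(x₂, y₂), e₂⟩ ⟨(x₁, y₁), e₁⟩ h₂ h₁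
      ⟨c * u, c * v, by rw [mul_pow, mul_pow, hc]; linarith, hx, hy⟩
    have h3 := congrArg (fun q : Sol k => q.1.2) this
    exact h3.symm
  · rw [huv] at hN
    nlinarith [sq_nonneg G]

/-- A prime power that divides a product. -/
theorem split_pow {p : ℕ} (hp : p.Prime) {n : ℕ} {a b : ℤ} (h : (p : ℤ) ^ n ∣ a * b) :
    ∃ i ≤ n, (p : ℤ) ^ i ∣ a ∧ (p : ℤ) ^ (n - i) ∣ b := by
  have h1 : p ^ n ∣ a.natAbs * b.natAbs := by
    rw [← Int.natAbs_mul]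
    have := Int.natAbs_dvd_natAbs.mpr h
    rwa [Int.natAbs_pow, Int.natAbs_natCast] at this
  obtain ⟨d₁, d₂, h2, h3, h4⟩ := exists_dvd_and_dvd_of_dvd_mul h1
  obtain ⟨i, hi, rfl⟩ := (Nat.dvd_prime_pow hp).mp (Dvd.intro _ h4.symm)
  have h5 : d₂ = p ^ (n - i) := by
    have h6 : p ^ n = p ^ i * p ^ (n - i) := by rw [← pow_add, Nat.add_sub_cancel' hi]
    rw [h6] at h4
    exact (Nat.eq_of_mul_eq_mul_left (pow_pos hp.pos i) h4).symm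
  subst h5
  refine ⟨i, hi, ?_, ?_⟩
  · have := Int.natCast_dvd.mpr h2
    exact_mod_cast this
  · have := Int.natCast_dvd.mpr h3
    exact_mod_cast this

/-- The data of an element of `ySet`. -/
structure Ex (k p a : ℕ) (x y : ℤ) (i : ℕ) : Prop where
  eq : x ^ 2 - ((k : ℤ) ^ 2 + 1) * y ^ 2 = (k : ℤ) ^ 2
  y1 : 1 ≤ y
  yk : y < k - 1
  ai : a ≤ i
  ia : i ≤ 2 * a
  dp : (p : ℤ) ^ i ∣ x + y
  dm : (p : ℤ) ^ (2 * a - i) ∣ x - y

theorem exists_ex {k p a s : ℕ} (hp : p.Prime) (hk : k = p ^ a * s) {y : ℕ} (hy : y ∈ ySet k)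
    (hyk : (y : ℤ) < k - 1) : ∃ (x : ℤ) (i : ℕ), Ex k p a x y i := by
  have hy' := hy
  rw [ySet, Finset.mem_filter, Finset.mem_Icc] at hy'
  have h1 := xOf_sq hy
  set x : ℤ := ((xOf k y : ℕ) : ℤ) with hx
  have h2 : (p : ℤ) ^ (2 * a) ∣ (x + y) * (x - y) := by
    refine ⟨(s : ℤ) ^ 2 * (y ^ 2 + 1), ?_⟩
    have e : (k : ℤ) = (p : ℤ) ^ a * s := by exact_mod_cast hk
    have e2 : (x + y) * (x - y) = (k : ℤ) ^ 2 * (y ^ 2 + 1) := by linear_combination h1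
    rw [e2, e, mul_comm 2 a, pow_mul]
    ring
  obtain ⟨i, hi, h3, h4⟩ := split_pow hp h2
  rcases le_total a i with hai | hai
  · exact ⟨x, i, ⟨by rw [h1]; ring, by exact_mod_cast hy'.1.1, hyk, hai, hi, h3, h4⟩⟩
  · refine ⟨-x, 2 * a - i, ⟨by rw [neg_sq, h1]; ring, by exact_mod_cast hy'.1.1, hyk, by omega,
      by omega, ?_, ?_⟩⟩
    · have e : -x + (y : ℤ) = -(x - y) := by ring
      rw [e]
      exact (dvd_neg).mpr h4
    · have e : -x - (y : ℤ) = -(x + y) := by ring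
      have e2 : 2 * a - (2 * a - i) = i := by omega
      rw [e, e2]
      exact (dvd_neg).mpr h3

/-- Small quotients: if `m` divides both coordinates of an element of norm `± N` and `N < 2 k m²`,
then the element is an integer times a unit. -/
theorem unit_of_dvd {k : ℤ} (hk : 2 ≤ k) {A B m N : ℤ} (hm : 0 < m) (hA : m ∣ A) (hB : m ∣ B)
    (hN : |A ^ 2 - (k ^ 2 + 1) * B ^ 2| = N) (h : N < 2 * k * m ^ 2) :
    ∃ g u v : ℤ, (u ^ 2 - (k ^ 2 + 1) * v ^ 2 = 1 ∨ u ^ 2 - (k ^ 2 + 1) * v ^ 2 = -1) ∧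
      A = g * u ∧ B = g * v := by
  obtain ⟨X, rfl⟩ := hA
  obtain ⟨Y, rfl⟩ := hB
  have e : (m * X) ^ 2 - (k ^ 2 + 1) * (m * Y) ^ 2 = m ^ 2 * (X ^ 2 - (k ^ 2 + 1) * Y ^ 2) := by
    ring
  have hm2 : 0 < m ^ 2 := by positivity
  rw [e, abs_mul, abs_of_pos hm2] at hN
  have h1 : |X ^ 2 - (k ^ 2 + 1) * Y ^ 2| < 2 * k := by
    rw [← hN] at h
    nlinarith
  obtain ⟨g, u, v, huv, hu, hv⟩ := small_norm hk _ X Y rfl h1
  exact ⟨m * g, u, v, huv, by rw [hu]; ring, by rw [hv]; ring⟩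

section

variable {k p a s : ℕ} (hp : p.Prime) (hk2 : 2 ≤ k) (hk : k = p ^ a * s)
include hp hk2

theorem Ex.b1 {x y : ℤ} {i : ℕ} (h : Ex k p a x y i) : (p : ℤ) ^ (2 * (2 * a - i)) ≤ 2 * k := by
  have hk' : (2 : ℤ) ≤ k := by exact_mod_cast hk2
  have hp0 : (0 : ℤ) < p := by exact_mod_cast hp.pos
  by_contra hlt
  rw [not_le] at hlt
  have h1 : (p : ℤ) ^ (2 * a - i) ∣ x + y := (pow_dvd_pow _ (by have := h.ai; omega)).trans h.dp
  have hA : (p : ℤ) ^ (2 * a - i) ∣ 2 * x := by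
    have := dvd_add h1 h.dm
    have e : x + y + (x - y) = 2 * x := by ring
    rwa [e] at this
  have hB : (p : ℤ) ^ (2 * a - i) ∣ 2 * y := by
    have := dvd_sub h1 h.dm
    have e : x + y - (x - y) = 2 * y := by ring
    rwa [e] at this
  obtain ⟨g, u, v, huv, hu, hv⟩ := unit_of_dvd hk' (pow_pos hp0 _) hA hB
    (N := 4 * (k : ℤ) ^ 2) (by
      have e : (2 * x) ^ 2 - ((k : ℤ) ^ 2 + 1) * (2 * y) ^ 2 = 4 * (k : ℤ) ^ 2 := by
        linear_combination 4 * h.eq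
      rw [e]
      exact abs_of_nonneg (by positivity)) (by
      rw [← pow_mul, mul_comm (2 * a - i) 2]
      nlinarith)
  have := eq_of_ratio hk2 (x₁ := x) (y₁ := y) (x₂ := k) (y₂ := 0) (G := k * g) (u := u) (v := v)
    h.eq (by ring) ⟨by have := h.y1; omega, by have := h.yk; omega,
      fun h0 => by have := h.y1; omega⟩ ⟨le_rfl, by omega, fun _ => by omega⟩ huv
    (by linear_combination (k : ℤ) * hu) (by linear_combination (k : ℤ) * hv)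
  have := h.y1
  omega

theorem Ex.b2 {x y : ℤ} {i : ℕ} (hk : k = p ^ a * s) (h : Ex k p a x y i) :
    2 * (p : ℤ) ^ (2 * i) ≤ (k : ℤ) ^ 3 := by
  have hk' : (2 : ℤ) ≤ k := by exact_mod_cast hk2
  have hp0 : (0 : ℤ) < p := by exact_mod_cast hp.pos
  have hkp : (p : ℤ) ^ i ∣ (k : ℤ) ^ 2 := by
    have e : (k : ℤ) = (p : ℤ) ^ a * s := by exact_mod_cast hk
    rw [e, mul_pow, ← pow_mul, mul_comm a 2]
    exact (pow_dvd_pow _ h.ia).trans (Dvd.intro _ rfl)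
  by_contra hlt
  rw [not_le] at hlt
  have hA : (p : ℤ) ^ i ∣ x + ((k : ℤ) ^ 2 + 1) * y := by
    have := dvd_add h.dp (hkp.mul_right y)
    have e : x + y + (k : ℤ) ^ 2 * y = x + ((k : ℤ) ^ 2 + 1) * y := by ring
    rwa [e] at this
  obtain ⟨g, u, v, huv, hu, hv⟩ := unit_of_dvd hk' (pow_pos hp0 i) hA h.dp
    (N := (k : ℤ) ^ 4) (by
      have e : (x + ((k : ℤ) ^ 2 + 1) * y) ^ 2 - ((k : ℤ) ^ 2 + 1) * (x + y) ^ 2 =
          -(k : ℤ) ^ 4 := by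
        linear_combination (-(k : ℤ) ^ 2) * h.eq
      rw [e, abs_neg]
      exact abs_of_nonneg (by positivity)) (by
      rw [← pow_mul, mul_comm i 2]
      have e : (k : ℤ) ^ 4 = k * (k : ℤ) ^ 3 := by ring
      rw [e]
      nlinarith)
  have := eq_of_ratio hk2 (x₁ := x) (y₁ := y) (x₂ := (k : ℤ) ^ 2 - k + 1) (y₂ := k - 1)
    (G := 2 * g) (u := -k * u + ((k : ℤ) ^ 2 + 1) * v) (v := u - k * v)
    h.eq (by ring) ⟨by have := h.y1; omega, by have := h.yk; omega,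
      fun h0 => by have := h.y1; omega⟩ ⟨by omega, by omega, fun _ => by nlinarith⟩
    (by
      have e : (-k * u + ((k : ℤ) ^ 2 + 1) * v) ^ 2 - ((k : ℤ) ^ 2 + 1) * (u - k * v) ^ 2 =
          -(u ^ 2 - ((k : ℤ) ^ 2 + 1) * v ^ 2) := by ring
      rw [e]
      rcases huv with h6 | h6
      · right; rw [h6]
      · left; rw [h6]; ring)
    (by linear_combination (-2 * (k : ℤ)) * hu + 2 * ((k : ℤ) ^ 2 + 1) * hv)
    (by linear_combination 2 * hu - 2 * (k : ℤ) * hv)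
  have := h.yk
  omega

theorem ex_unique {x₁ y₁ x₂ y₂ : ℤ} {i₁ i₂ : ℕ} (hk : k = p ^ a * s) (hs : 2 * s ^ 8 < k)
    (h₁ : Ex k p a x₁ y₁ i₁) (h₂ : Ex k p a x₂ y₂ i₂) (hi : i₂ ≤ i₁) : y₁ = y₂ := by
  have hk' : (2 : ℤ) ≤ k := by exact_mod_cast hk2
  have hp0 : (0 : ℤ) < p := by exact_mod_cast hp.pos
  have hb1 := Ex.b1 hp hk2 h₂
  have hb2 := Ex.b2 hp hk2 hk h₁
  have a1 := h₁.ai
  have a2 := h₂.ai
  have c1 := h₁.ia
  have c2 := h₂.ia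
  obtain ⟨M, hM⟩ : ∃ M, M = 2 * a - i₁ + i₂ := ⟨_, rfl⟩
  have hkp : (p : ℤ) ^ M ∣ (k : ℤ) ^ 2 := by
    have e : (k : ℤ) = (p : ℤ) ^ a * s := by exact_mod_cast hk
    rw [e, mul_pow, ← pow_mul, mul_comm a 2]
    exact (pow_dvd_pow _ (by omega)).trans (Dvd.intro _ rfl)
  have d1 : (p : ℤ) ^ M ∣ (x₁ + y₁) * (x₂ - y₂) := by
    have := mul_dvd_mul h₁.dp h₂.dm
    rw [← pow_add] at this
    exact (pow_dvd_pow _ (by omega)).trans this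
  have d2 : (p : ℤ) ^ M ∣ (x₂ + y₂) * (x₁ - y₁) := by
    have := mul_dvd_mul h₂.dp h₁.dm
    rw [← pow_add] at this
    exact (pow_dvd_pow _ (by omega)).trans this
  have hA : (p : ℤ) ^ M ∣ 2 * (x₁ * x₂ - ((k : ℤ) ^ 2 + 1) * (y₁ * y₂)) := by
    have := dvd_sub (dvd_add d1 d2) (hkp.mul_right (2 * (y₁ * y₂)))
    have e : (x₁ + y₁) * (x₂ - y₂) + (x₂ + y₂) * (x₁ - y₁) - (k : ℤ) ^ 2 * (2 * (y₁ * y₂)) =
        2 * (x₁ * x₂ - ((k : ℤ) ^ 2 + 1) * (y₁ * y₂)) := by ring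
    rwa [e] at this
  have hB : (p : ℤ) ^ M ∣ 2 * (x₂ * y₁ - x₁ * y₂) := by
    have := dvd_sub d1 d2
    have e : (x₁ + y₁) * (x₂ - y₂) - (x₂ + y₂) * (x₁ - y₁) = 2 * (x₂ * y₁ - x₁ * y₂) := by ring
    rwa [e] at this
  have hpM : (0 : ℤ) < (p : ℤ) ^ (2 * M) := pow_pos hp0 _
  have key : 2 * (k : ℤ) ^ 3 < (p : ℤ) ^ (2 * M) := by
    have e0 : (k : ℤ) ^ 8 = (s : ℤ) ^ 8 * (p : ℤ) ^ (8 * a) := by
      have e : (k : ℤ) = (p : ℤ) ^ a * s := by exact_mod_cast hk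
      rw [e, mul_pow, ← pow_mul, mul_comm a 8]
      ring
    have e1 : (p : ℤ) ^ (8 * a) =
        (p : ℤ) ^ (2 * M) * ((p : ℤ) ^ (2 * i₁) * (p : ℤ) ^ (2 * (2 * a - i₂))) := by
      rw [← pow_add, ← pow_add]
      congr 1
      omega
    have e2 : (p : ℤ) ^ (2 * i₁) * (p : ℤ) ^ (2 * (2 * a - i₂)) ≤ (k : ℤ) ^ 4 := by
      have h5 : 2 * ((p : ℤ) ^ (2 * i₁) * (p : ℤ) ^ (2 * (2 * a - i₂))) ≤ (k : ℤ) ^ 3 * (2 * k) := by
        rw [← mul_assoc]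
        exact mul_le_mul hb2 hb1 (by positivity) (by positivity)
      nlinarith
    have e3 : (k : ℤ) ^ 8 ≤ (s : ℤ) ^ 8 * ((p : ℤ) ^ (2 * M) * (k : ℤ) ^ 4) := by
      rw [e0, e1]
      exact mul_le_mul_of_nonneg_left (mul_le_mul_of_nonneg_left e2 hpM.le) (by positivity)
    have e4 : (k : ℤ) ^ 4 ≤ (s : ℤ) ^ 8 * (p : ℤ) ^ (2 * M) := by
      have h4 : (0 : ℤ) < (k : ℤ) ^ 4 := by positivity
      have e5 : (k : ℤ) ^ 8 = (k : ℤ) ^ 4 * (k : ℤ) ^ 4 := by ring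
      rw [e5] at e3
      nlinarith
    have hs' : 2 * (s : ℤ) ^ 8 < k := by exact_mod_cast hs
    have hs0 : (0 : ℤ) < (s : ℤ) ^ 8 := by
      have : s ≠ 0 := by
        rintro rfl
        rw [mul_zero] at hk
        omega
      positivity
    by_contra hcon
    rw [not_lt] at hcon
    have h6 : (k : ℤ) ^ 4 ≤ (s : ℤ) ^ 8 * (2 * (k : ℤ) ^ 3) :=
      e4.trans (mul_le_mul_of_nonneg_left hcon hs0.le)
    have h7 : (0 : ℤ) < (k : ℤ) ^ 3 := by positivity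
    have e6 : (k : ℤ) ^ 4 = (k : ℤ) * (k : ℤ) ^ 3 := by ring
    rw [e6] at h6
    nlinarith
  obtain ⟨g, u, v, huv, hu, hv⟩ := unit_of_dvd hk' (pow_pos hp0 M) hA hB
    (N := 4 * (k : ℤ) ^ 4) (by
      have e : (2 * (x₁ * x₂ - ((k : ℤ) ^ 2 + 1) * (y₁ * y₂))) ^ 2 -
          ((k : ℤ) ^ 2 + 1) * (2 * (x₂ * y₁ - x₁ * y₂)) ^ 2 =
          4 * ((x₁ ^ 2 - ((k : ℤ) ^ 2 + 1) * y₁ ^ 2) *
            (x₂ ^ 2 - ((k : ℤ) ^ 2 + 1) * y₂ ^ 2)) := by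
        ring
      rw [e, h₁.eq, h₂.eq]
      have e' : 4 * ((k : ℤ) ^ 2 * (k : ℤ) ^ 2) = 4 * (k : ℤ) ^ 4 := by ring
      rw [e']
      exact abs_of_nonneg (by positivity)) (by
      rw [← pow_mul, mul_comm M 2]
      have e : 4 * (k : ℤ) ^ 4 = 2 * k * (2 * (k : ℤ) ^ 3) := by ring
      rw [e]
      exact mul_lt_mul_of_pos_left key (by positivity))
  exact eq_of_ratio hk2 h₁.eq h₂.eq ⟨by have := h₁.y1; omega, by have := h₁.yk; omega,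
      fun h0 => by have := h₁.y1; omega⟩ ⟨by have := h₂.y1; omega, by have := h₂.yk; omega,
      fun h0 => by have := h₂.y1; omega⟩ huv hu hv

theorem ex_root {x y : ℤ} {i : ℕ} (hk : k = p ^ a * s) (hs1 : 32 * s ^ 8 < k)
    (hs2 : 2 * s ^ 12 < k) (h : Ex k p a x y i) : 2 * y ^ 2 = k := by
  have hk' : (2 : ℤ) ≤ k := by exact_mod_cast hk2
  have hp0 : (0 : ℤ) < p := by exact_mod_cast hp.pos
  have hb1 := Ex.b1 hp hk2 h
  have hb2 := Ex.b2 hp hk2 hk h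
  have a1 := h.ai
  have c1 := h.ia
  have hs0 : (0 : ℤ) < s := by
    have : s ≠ 0 := by
      rintro rfl
      rw [mul_zero] at hk
      omega
    positivity
  have ek : (k : ℤ) = (p : ℤ) ^ a * s := by exact_mod_cast hk
  obtain ⟨M, hM1, hM2, hM3⟩ : ∃ M, M ≤ 2 * i ∧ M ≤ 6 * a - 2 * i ∧
      8 * (k : ℤ) ^ 5 < (p : ℤ) ^ (2 * M) := by
    rcases le_total (2 * i) (6 * a - 2 * i) with hle | hle
    · refine ⟨2 * i, le_rfl, hle, ?_⟩
      have e0 : (k : ℤ) ^ 8 = (s : ℤ) ^ 8 * (p : ℤ) ^ (8 * a) := by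
        rw [ek, mul_pow, ← pow_mul, mul_comm a 8]
        ring
      have e1 : (p : ℤ) ^ (8 * a) = (p : ℤ) ^ (2 * (2 * i)) * ((p : ℤ) ^ (2 * (2 * a - i))) ^ 2 := by
        rw [← pow_mul, ← pow_add]
        congr 1
        omega
      have e2 : ((p : ℤ) ^ (2 * (2 * a - i))) ^ 2 ≤ 4 * (k : ℤ) ^ 2 := by
        have := pow_le_pow_left₀ (by positivity) hb1 2
        linarith [this, (by ring : (2 * (k : ℤ)) ^ 2 = 4 * (k : ℤ) ^ 2)]
      have hpM : (0 : ℤ) < (p : ℤ) ^ (2 * (2 * i)) := pow_pos hp0 _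
      have e3 : (k : ℤ) ^ 8 ≤ (s : ℤ) ^ 8 * ((p : ℤ) ^ (2 * (2 * i)) * (4 * (k : ℤ) ^ 2)) := by
        rw [e0, e1]
        exact mul_le_mul_of_nonneg_left (mul_le_mul_of_nonneg_left e2 hpM.le) (by positivity)
      have hs' : 32 * (s : ℤ) ^ 8 < k := by exact_mod_cast hs1
      by_contra hcon
      rw [not_lt] at hcon
      have h6 : (k : ℤ) ^ 8 ≤ (s : ℤ) ^ 8 * (8 * (k : ℤ) ^ 5 * (4 * (k : ℤ) ^ 2)) :=
        e3.trans (mul_le_mul_of_nonneg_left (mul_le_mul_of_nonneg_right hcon (by positivity))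
          (by positivity))
      have h7 : (0 : ℤ) < (k : ℤ) ^ 7 := by positivity
      have e6 : (k : ℤ) ^ 8 = (k : ℤ) * (k : ℤ) ^ 7 := by ring
      have e7 : (s : ℤ) ^ 8 * (8 * (k : ℤ) ^ 5 * (4 * (k : ℤ) ^ 2)) =
          32 * (s : ℤ) ^ 8 * (k : ℤ) ^ 7 := by ring
      rw [e6, e7] at h6
      nlinarith
    · refine ⟨6 * a - 2 * i, hle, le_rfl, ?_⟩
      have e0 : (k : ℤ) ^ 12 = (s : ℤ) ^ 12 * (p : ℤ) ^ (12 * a) := by
        rw [ek, mul_pow, ← pow_mul, mul_comm a 12]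
        ring
      have e1 : (p : ℤ) ^ (12 * a) =
          (p : ℤ) ^ (2 * (6 * a - 2 * i)) * ((p : ℤ) ^ (2 * i)) ^ 2 := by
        rw [← pow_mul, ← pow_add]
        congr 1
        omega
      have e2 : 4 * ((p : ℤ) ^ (2 * i)) ^ 2 ≤ (k : ℤ) ^ 6 := by
        have := pow_le_pow_left₀ (by positivity) hb2 2
        have e3 : (2 * (p : ℤ) ^ (2 * i)) ^ 2 = 4 * ((p : ℤ) ^ (2 * i)) ^ 2 := by ring
        have e4 : ((k : ℤ) ^ 3) ^ 2 = (k : ℤ) ^ 6 := by ring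
        rwa [e3, e4] at this
      have hpM : (0 : ℤ) < (p : ℤ) ^ (2 * (6 * a - 2 * i)) := pow_pos hp0 _
      have e3 : 4 * (k : ℤ) ^ 12 ≤
          (s : ℤ) ^ 12 * ((p : ℤ) ^ (2 * (6 * a - 2 * i)) * (k : ℤ) ^ 6) := by
        have e4 : 4 * (k : ℤ) ^ 12 =
            (s : ℤ) ^ 12 * ((p : ℤ) ^ (2 * (6 * a - 2 * i)) * (4 * ((p : ℤ) ^ (2 * i)) ^ 2)) := by
          rw [e0, e1]
          ring
        rw [e4]
        exact mul_le_mul_of_nonneg_left (mul_le_mul_of_nonneg_left e2 hpM.le) (by positivity)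
      have hs' : 2 * (s : ℤ) ^ 12 < k := by exact_mod_cast hs2
      by_contra hcon
      rw [not_lt] at hcon
      have h6 : 4 * (k : ℤ) ^ 12 ≤ (s : ℤ) ^ 12 * (8 * (k : ℤ) ^ 5 * (k : ℤ) ^ 6) :=
        e3.trans (mul_le_mul_of_nonneg_left (mul_le_mul_of_nonneg_right hcon (by positivity))
          (by positivity))
      have h7 : (0 : ℤ) < (k : ℤ) ^ 11 := by positivity
      have e6 : 4 * (k : ℤ) ^ 12 = 4 * (k : ℤ) * (k : ℤ) ^ 11 := by ring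
      have e7 : (s : ℤ) ^ 12 * (8 * (k : ℤ) ^ 5 * (k : ℤ) ^ 6) =
          8 * (s : ℤ) ^ 12 * (k : ℤ) ^ 11 := by ring
      rw [e6, e7] at h6
      nlinarith
  have h1 : (p : ℤ) ^ (2 * a - i) ∣ x + y := (pow_dvd_pow _ (by omega)).trans h.dp
  have hA : (p : ℤ) ^ (2 * a - i) ∣ 2 * x := by
    have := dvd_add h1 h.dm
    have e : x + y + (x - y) = 2 * x := by ring
    rwa [e] at this
  have hB : (p : ℤ) ^ (2 * a - i) ∣ 2 * y := by
    have := dvd_sub h1 h.dm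
    have e : x + y - (x - y) = 2 * y := by ring
    rwa [e] at this
  have hkp : (p : ℤ) ^ (2 * a) ∣ (k : ℤ) ^ 2 := by
    rw [ek, mul_pow, ← pow_mul, mul_comm a 2]
    exact Dvd.intro _ rfl
  have d0 : (p : ℤ) ^ M ∣ (x + y) ^ 2 := by
    have := pow_dvd_pow_of_dvd h.dp 2
    rw [← pow_mul] at this
    exact (pow_dvd_pow _ (by omega)).trans this
  have d1 : (p : ℤ) ^ M ∣ (k : ℤ) ^ 2 * ((2 * y) * (2 * y)) := by
    have := mul_dvd_mul hkp (mul_dvd_mul hB hB)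
    rw [← pow_add, ← pow_add] at this
    exact (pow_dvd_pow _ (by omega)).trans this
  have d2 : (p : ℤ) ^ M ∣ (k : ℤ) ^ 2 * ((2 * x) * (2 * y)) := by
    have := mul_dvd_mul hkp (mul_dvd_mul hA hB)
    rw [← pow_add, ← pow_add] at this
    exact (pow_dvd_pow _ (by omega)).trans this
  obtain ⟨g, u, v, huv, hu, hv⟩ := unit_of_dvd hk' (pow_pos hp0 M)
    (A := 4 * (x ^ 2 + ((k : ℤ) ^ 2 + 1) * y ^ 2 + 2 * ((k : ℤ) ^ 2 + 1) * x * y))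
    (B := 4 * (x ^ 2 + ((k : ℤ) ^ 2 + 1) * y ^ 2 + 2 * x * y))
    (by
      have := dvd_add (dvd_add (d0.mul_left 4) d1) (d2.mul_left 2)
      have e : 4 * (x + y) ^ 2 + (k : ℤ) ^ 2 * ((2 * y) * (2 * y)) +
          2 * ((k : ℤ) ^ 2 * ((2 * x) * (2 * y))) =
          4 * (x ^ 2 + ((k : ℤ) ^ 2 + 1) * y ^ 2 + 2 * ((k : ℤ) ^ 2 + 1) * x * y) := by ring
      rwa [e] at this)
    (by
      have := dvd_add (d0.mul_left 4) d1
      have e : 4 * (x + y) ^ 2 + (k : ℤ) ^ 2 * ((2 * y) * (2 * y)) =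
          4 * (x ^ 2 + ((k : ℤ) ^ 2 + 1) * y ^ 2 + 2 * x * y) := by ring
      rwa [e] at this)
    (N := 16 * (k : ℤ) ^ 6) (by
      have e : (4 * (x ^ 2 + ((k : ℤ) ^ 2 + 1) * y ^ 2 + 2 * ((k : ℤ) ^ 2 + 1) * x * y)) ^ 2 -
          ((k : ℤ) ^ 2 + 1) * (4 * (x ^ 2 + ((k : ℤ) ^ 2 + 1) * y ^ 2 + 2 * x * y)) ^ 2 =
          -(16 * (k : ℤ) ^ 2 * (x ^ 2 - ((k : ℤ) ^ 2 + 1) * y ^ 2) ^ 2) := by ring
      rw [e, h.eq, abs_neg, abs_of_nonneg (by positivity)]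
      ring) (by
      rw [← pow_mul, mul_comm M 2]
      have e : 16 * (k : ℤ) ^ 6 = 2 * k * (8 * (k : ℤ) ^ 5) := by ring
      rw [e]
      exact mul_lt_mul_of_pos_left hM3 (by positivity))
  have hN : g ^ 2 * (u ^ 2 - ((k : ℤ) ^ 2 + 1) * v ^ 2) = -(16 * (k : ℤ) ^ 6) := by
    have e : g ^ 2 * (u ^ 2 - ((k : ℤ) ^ 2 + 1) * v ^ 2) =
        (g * u) ^ 2 - ((k : ℤ) ^ 2 + 1) * (g * v) ^ 2 := by ring
    rw [e, ← hu, ← hv]
    have e : (4 * (x ^ 2 + ((k : ℤ) ^ 2 + 1) * y ^ 2 + 2 * ((k : ℤ) ^ 2 + 1) * x * y)) ^ 2 -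
        ((k : ℤ) ^ 2 + 1) * (4 * (x ^ 2 + ((k : ℤ) ^ 2 + 1) * y ^ 2 + 2 * x * y)) ^ 2 =
        -(16 * (k : ℤ) ^ 2 * (x ^ 2 - ((k : ℤ) ^ 2 + 1) * y ^ 2) ^ 2) := by ring
    rw [e, h.eq]
    ring
  have hk6 : (0 : ℤ) < 16 * (k : ℤ) ^ 6 := by positivity
  have huv' : u ^ 2 - ((k : ℤ) ^ 2 + 1) * v ^ 2 = -1 := by
    rcases huv with h6 | h6
    · rw [h6] at hN
      nlinarith [sq_nonneg g]
    · exact h6
  rw [huv'] at hN
  obtain ⟨c, hc, hgc⟩ : ∃ c : ℤ, c ^ 2 = 1 ∧ g = c * (4 * (k : ℤ) ^ 3) := by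
    have : (g - 4 * (k : ℤ) ^ 3) * (g + 4 * (k : ℤ) ^ 3) = 0 := by linear_combination -hN
    rcases mul_eq_zero.mp this with h6 | h6
    · exact ⟨1, by norm_num, by linarith⟩
    · exact ⟨-1, by norm_num, by linarith⟩
  -- the equations for `U = c u`, `n = c v`
  obtain ⟨U, hU⟩ : ∃ U, U = c * u := ⟨_, rfl⟩
  obtain ⟨n, hn⟩ : ∃ n, n = c * v := ⟨_, rfl⟩
  have hE1 : x ^ 2 + ((k : ℤ) ^ 2 + 1) * y ^ 2 + 2 * ((k : ℤ) ^ 2 + 1) * x * y =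
      (k : ℤ) ^ 3 * U := by
    rw [hgc] at hu
    rw [hU]
    linarith
  have hE2 : x ^ 2 + ((k : ℤ) ^ 2 + 1) * y ^ 2 + 2 * x * y = (k : ℤ) ^ 3 * n := by
    rw [hgc] at hv
    rw [hn]
    linarith
  have hUn : U ^ 2 - ((k : ℤ) ^ 2 + 1) * n ^ 2 = -1 := by
    rw [hU, hn, mul_pow, mul_pow, hc]
    linarith
  have hk3 : (0 : ℤ) < (k : ℤ) ^ 3 := by positivity
  have hy1 := h.y1
  have hyk := h.yk
  have hxabs : |x| ≤ (k : ℤ) ^ 2 - k + 1 :=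
    abs_x_le hk2 ⟨(x, y), h.eq⟩ ⟨by show 0 ≤ y; omega, by show y < k; omega,
      fun h0 => by have : y = 0 := h0; omega⟩
  have hx := abs_le.mp hxabs
  have hn0 : 0 < n := by
    have : 0 < (k : ℤ) ^ 3 * n := by
      rw [← hE2]
      nlinarith [sq_nonneg (x + y), mul_pos (by positivity : (0 : ℤ) < (k : ℤ) ^ 2)
        (by positivity : (0 : ℤ) < y ^ 2)]
    exact (mul_pos_iff_of_pos_left hk3).mp this
  have hn2 : n < 2 * k := by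
    have hy2 : y ^ 2 ≤ ((k : ℤ) - 1) ^ 2 := pow_le_pow_left₀ (by omega) (by omega) 2
    have hxy : x * y ≤ ((k : ℤ) ^ 2 - k + 1) * (k - 1) := by
      have q0 : (0 : ℤ) ≤ (k : ℤ) ^ 2 - k + 1 := by nlinarith
      nlinarith
    have e : (k : ℤ) ^ 3 * n = (k : ℤ) ^ 2 + 2 * (((k : ℤ) ^ 2 + 1) * y ^ 2) + 2 * (x * y) := by
      rw [← hE2]
      linear_combination h.eq
    by_contra hcon
    rw [not_lt] at hcon
    have q1 : (k : ℤ) ^ 3 * (2 * k) ≤ (k : ℤ) ^ 3 * n := mul_le_mul_of_nonneg_left hcon hk3.le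
    have q2 : ((k : ℤ) ^ 2 + 1) * y ^ 2 ≤ ((k : ℤ) ^ 2 + 1) * ((k : ℤ) - 1) ^ 2 :=
      mul_le_mul_of_nonneg_left hy2 (by positivity)
    nlinarith
  have hn1 : n = 1 := by
    obtain ⟨w, hw⟩ : ∃ w, w = |U| := ⟨_, rfl⟩
    have hw2 : w ^ 2 = U ^ 2 := by rw [hw, sq_abs]
    have hw0 : 0 ≤ w := by rw [hw]; exact abs_nonneg U
    have q1 : (k : ℤ) * n ≤ w := by
      apply le_of_sq_le_sq _ hw0
      rw [hw2]
      nlinarith
    have q2 : w < k * n + 1 := by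
      refine lt_of_pow_lt_pow_left₀ 2 (by positivity) ?_
      rw [hw2]
      nlinarith
    have q3 : w = k * n := by omega
    have q4 : n ^ 2 = 1 := by
      rw [← hw2, q3] at hUn
      linarith
    nlinarith
  rw [hn1] at hUn hE2
  have hU2 : (U - k) * (U + k) = 0 := by linear_combination hUn
  have hxy : 2 * (x * y) = k * (U - 1) := by
    have hk2' : (k : ℤ) ^ 2 ≠ 0 := by positivity
    apply mul_left_cancel₀ hk2'
    linear_combination hE1 - hE2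
  have heq := h.eq
  rcases mul_eq_zero.mp hU2 with hU3 | hU3
  · exfalso
    have hU4 : U = k := by linarith
    rw [hU4] at hxy
    have e : ((k : ℤ) ^ 2 + 1) * (2 * y ^ 2 - k + 2) = 2 := by
      linear_combination hE2 - heq - hxy
    have q : (k : ℤ) ^ 2 + 1 ∣ 2 := Dvd.intro _ e
    have := Int.le_of_dvd (by norm_num) q
    nlinarith
  · have hU4 : U = -k := by linarith
    rw [hU4] at hxy
    have e : ((k : ℤ) ^ 2 + 1) * (2 * y ^ 2) = ((k : ℤ) ^ 2 + 1) * k := by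
      linear_combination hE2 - heq - hxy
    exact mul_left_cancel₀ (by positivity) e

end

end Pool.Agent.Lib.MP_b40da5_nt_h5
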