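import Pool.Agent.Lib.MP_b40da5_nt_h5.Fin

/-!
# The number of classes in terms of the primes dividing `k`
-/

set_option autoImplicit false

namespace Pool.Agent.Lib.MP_b40da5_nt_h5

open Pool.Agent.Lib.MP_b40da5_nt

section

variable {k : ℕ} (hk : 2 ≤ k)

/-- the element belonging to `y` -/
def el (k y : ℕ) : ℤ√((k : ℤ) ^ 2 + 1) := ⟨((xOf k y : ℕ) : ℤ), (y : ℤ)⟩

theorem el_eq {y : ℕ} (hy : y ∈ ySet k) :
    ((xOf k y : ℕ) : ℤ) ^ 2 - ((k : ℤ) ^ 2 + 1) * (y : ℤ) ^ 2 = (k : ℤ) ^ 2 := by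
  rw [xOf_sq hy]
  ring

theorem el_norm {y : ℕ} (hy : y ∈ ySet k) : (el k y).norm = (k : ℤ) ^ 2 := by
  rw [norm_pow]
  exact el_eq hy

theorem y_bd {y : ℕ} (hk : 2 ≤ k) (hy : y ∈ ySet k) : 0 < (y : ℤ) ∧ (y : ℤ) < k := by
  rw [ySet, Finset.mem_filter, Finset.mem_Icc] at hy
  omega

theorem y_nrm {y : ℕ} (hk : 2 ≤ k) (hy : y ∈ ySet k) :
    0 ≤ (y : ℤ) ∧ (y : ℤ) < k ∧ ((y : ℤ) = 0 → 0 ≤ ((xOf k y : ℕ) : ℤ)) :=
  ⟨(y_bd hk hy).1.le, (y_bd hk hy).2, fun _ => by positivity⟩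

theorem el_box {y : ℕ} (hy : y ∈ ySet k) : Box (aa k) (nuv hk (el k y)) ∧
    ∀ i, ∃ c, nuv hk (el k y) i = 2 * c := by
  have key : ∀ i, (nuv hk (el k y) i).natAbs ≤ 2 * aa k i ∧ ∃ c, nuv hk (el k y) i = 2 * c := by
    intro i
    have h1 := nu_box (by omega) (dvd_k hk i) (rt hk i) (el_norm hy)
    have h2 := (vk_sub hk i).1
    have h3 : nuv hk (el k y) i = nu (rt hk i) (el k y) := rfl
    rw [h3]
    exact ⟨by omega, h1.2⟩
  exact ⟨fun i => (key i).1, fun i => (key i).2⟩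

theorem el_inj (hk3 : 3 ≤ k) {y z : ℕ} (hy : y ∈ ySet k) (hz : z ∈ ySet k)
    (h : nuv hk (el k y) = nuv hk (el k z) ∨ nuv hk (el k y) = -nuv hk (el k z)) : y = z := by
  rcases h with h | h
  · have := inj_core hk hk3 (el_eq hy) (el_eq hz) (y_nrm hk hy) (y_nrm hk hz) h
    exact_mod_cast this
  · have := inj_core' hk hk3 (el_eq hy) (el_eq hz) (y_nrm hk hy) (y_bd hk hz) h
    exact_mod_cast this

theorem el_ne (hk3 : 3 ≤ k) {y : ℕ} (hy : y ∈ ySet k) : nuv hk (el k y) ≠ 0 := by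
  intro h
  have h1 : nuv hk (⟨(k : ℤ), 0⟩ : ℤ√((k : ℤ) ^ 2 + 1)) = 0 := by
    have e : (⟨(k : ℤ), 0⟩ : ℤ√((k : ℤ) ^ 2 + 1)) = (((k : ℤ)) : ℤ√((k : ℤ) ^ 2 + 1)) := by
      ext <;> simp
    rw [e]
    exact nuv_int hk _
  have h2 := inj_core hk hk3 (el_eq hy) (x₂ := k) (y₂ := 0) (by ring) (y_nrm hk hy)
    ⟨le_rfl, by omega, fun _ => by positivity⟩ (by
      rw [h1]
      exact h)
  have := (y_bd hk hy).1
  omega

theorem el_cor (hk3 : 3 ≤ k) {y : ℕ} (hy : y ∈ ySet k)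
    (h : nuv hk (el k y) = cor (aa k) ∨ nuv hk (el k y) = -cor (aa k)) : y = k - 1 := by
  have hk' : (3 : ℤ) ≤ k := by exact_mod_cast hk3
  have h0 : (⟨1, 1⟩ : ℤ√((k : ℤ) ^ 2 + 1)) ≠ 0 := by
    intro h
    have := congrArg Zsqrtd.im h
    simp at this
  have hu : (⟨(k : ℤ), 1⟩ : ℤ√((k : ℤ) ^ 2 + 1)).norm = 1 ∨
      (⟨(k : ℤ), 1⟩ : ℤ√((k : ℤ) ^ 2 + 1)).norm = -1 := by
    right
    rw [norm_pow]
    ring
  have hm : (-1 : ℤ√((k : ℤ) ^ 2 + 1)).norm = 1 := by
    rw [Zsqrtd.norm_neg, Zsqrtd.norm_one]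
  have h1 : nuv hk (⟨(k : ℤ) ^ 2 - k + 1, (k : ℤ) - 1⟩ : ℤ√((k : ℤ) ^ 2 + 1)) = cor (aa k) := by
    have e : (⟨(k : ℤ) ^ 2 - k + 1, (k : ℤ) - 1⟩ : ℤ√((k : ℤ) ^ 2 + 1)) =
        (-1) * (star (⟨1, 1⟩ : ℤ√((k : ℤ) ^ 2 + 1)) * ⟨(k : ℤ), 1⟩) := by
      rw [neg_one_mul]
      ext
      · rw [Zsqrtd.re_neg, Zsqrtd.re_mul, Zsqrtd.re_star, Zsqrtd.im_star]
        ring
      · rw [Zsqrtd.im_neg, Zsqrtd.im_mul, Zsqrtd.re_star, Zsqrtd.im_star]
        ring
    rw [e, nuv_mul hk (by norm_num) (Good.mul hk (Good.star ⟨h0, ?_⟩) (good_unit hu)).1,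
      nuv_mul hk (star_ne h0) (good_unit hu).1, nuv_star, nuv_unit hk hu,
      nuv_unit hk (x := -1) (Or.inl hm), zero_add, add_zero]
    · funext i
      rw [Pi.neg_apply, nuv_one_root, neg_neg]
      rfl
    · have hg := good_of_norm (k := k) h0 ⟨by
        rw [norm_pow]
        exact ⟨-2, by ring⟩, Or.inr (by
        rw [norm_pow]
        exact ⟨-1, by ring⟩)⟩
      exact hg.2
  have e₂ : ((k : ℤ) ^ 2 - k + 1) ^ 2 - ((k : ℤ) ^ 2 + 1) * ((k : ℤ) - 1) ^ 2 = (k : ℤ) ^ 2 := by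
    ring
  have h2 : (y : ℤ) = (k : ℤ) - 1 := by
    rcases h with h | h
    · exact inj_core hk hk3 (el_eq hy) e₂ (y_nrm hk hy)
        ⟨by omega, by omega, fun _ => by nlinarith⟩ (by
        rw [h1]
        exact h)
    · exact inj_core' hk hk3 (el_eq hy) e₂ (y_nrm hk hy) ⟨by omega, by omega⟩ (by
        rw [h1]
        exact h)
  omega

/-- the lattice vector of `y` -/
noncomputable def gv (y : ℕ) : LL hk :=
  open Classical in
  if h : y ∈ ySet k then ⟨nuv hk (el k y), ⟨el k y, good_of_sq hk (el_norm h), rfl⟩⟩ else 0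

theorem gv_eq {y : ℕ} (hy : y ∈ ySet k) : ((gv hk y : LL hk) : Idx k → ℤ) = nuv hk (el k y) := by
  unfold gv
  rw [dif_pos hy]

theorem card_idx : Fintype.card (Idx k) = (kk k).primeFactors.card := Fintype.card_coe _

include hk

/-- counting, odd `k` -/
theorem card_odd (hk3 : 3 ≤ k) (ho : ¬ Even k) :
    (ySet k).card + 1 ≤ 2 ^ (kk k).primeFactors.card := by
  rw [← card_idx]
  apply count_odd PP_pos (min_odd hk ho) (ySet k) (gv hk)
  · intro y hy
    rw [gv_eq hk hy]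
    exact (el_box hk hy).1
  · intro y hy
    rw [gv_eq hk hy]
    exact el_ne hk hk3 hy
  · intro y hy z hz hne
    rw [gv_eq hk hy, gv_eq hk hz]
    exact ⟨fun h => hne (el_inj hk hk3 hy hz (Or.inl h)),
      fun h => hne (el_inj hk hk3 hy hz (Or.inr h))⟩

theorem hcor_ne (hk3 : 3 ≤ k) : hcor (aa k) ≠ 0 := by
  intro h
  have h1 : kk k ≠ 1 := by
    unfold kk
    split_ifs with h
    · obtain ⟨m, hm⟩ := h
      omega
    · omega
  obtain ⟨p, hp, hpd⟩ := Nat.exists_prime_and_dvd h1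
  have h2 := congrFun h (⟨p, Nat.mem_primeFactors.mpr ⟨hp, hpd, kk_ne hk⟩⟩ : Idx k)
  have h3 := (vk_sub hk (⟨p, Nat.mem_primeFactors.mpr ⟨hp, hpd, kk_ne hk⟩⟩ : Idx k)).2
  simp only [hcor, Pi.zero_apply] at h2
  omega

/-- counting, even `k`: all solutions but the last one and possibly `k = 2 t²` -/
theorem card_even (hk3 : 3 ≤ k) (he : Even k) (S : Finset ℕ) (hS : S ⊆ ySet k)
    (h1 : ∀ y ∈ S, y ≠ k - 1) (h2 : ∀ y ∈ S, nuv hk (el k y) ≠ hcor (aa k))
    (h3 : ∀ y ∈ S, nuv hk (el k y) ≠ -hcor (aa k)) :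
    S.card + 2 ≤ 2 ^ (kk k).primeFactors.card := by
  rw [← card_idx]
  apply count_even PP_pos (min_even hk he) (hcor_mem hk he) (hcor_ne hk hk3) S (gv hk)
  · intro y hy
    rw [gv_eq hk (hS hy)]
    exact (el_box hk (hS hy)).1
  · intro y hy
    rw [gv_eq hk (hS hy)]
    exact el_ne hk hk3 (hS hy)
  · intro y hy
    rw [gv_eq hk (hS hy)]
    exact fun h => h1 y hy (el_cor hk hk3 (hS hy) (Or.inl h))
  · intro y hy
    rw [gv_eq hk (hS hy)]
    exact fun h => h1 y hy (el_cor hk hk3 (hS hy) (Or.inr h))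
  · intro y hy
    rw [gv_eq hk (hS hy)]
    exact h2 y hy
  · intro y hy
    rw [gv_eq hk (hS hy)]
    exact h3 y hy
  · intro y hy z hz hne
    rw [gv_eq hk (hS hy), gv_eq hk (hS hz)]
    exact ⟨fun h => hne (el_inj hk hk3 (hS hy) (hS hz) (Or.inl h)),
      fun h => hne (el_inj hk hk3 (hS hy) (hS hz) (Or.inr h))⟩

/-- if `k ≠ 2 t²` is even some exponent of `k / 2` is odd -/
theorem exists_odd (he : Even k) (hsq : ¬ ∃ t, k = 2 * t ^ 2) :
    ∃ i, ¬ ∃ c : ℤ, (aa k i : ℤ) = 2 * c := by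
  by_contra hcon
  push Not at hcon
  have h1 : ∀ i, ∃ c : ℕ, aa k i = 2 * c := by
    intro i
    obtain ⟨c, hc⟩ := hcon i
    exact ⟨c.toNat, by omega⟩
  choose c hc using h1
  apply hsq
  refine ⟨∏ i, PP k i ^ c i, ?_⟩
  rw [← Finset.prod_pow]
  have h2 := top_eq hk
  unfold top at h2
  have h3 : ∏ i, (PP k i ^ c i) ^ 2 = ∏ i, PP k i ^ aa k i := by
    refine Finset.prod_congr rfl fun i _ => ?_
    rw [hc i, ← pow_mul, mul_comm]
  rw [h3, h2]
  exact even_eq he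

/-- at most one exceptional solution -/
theorem unique (hk3 : 3 ≤ k) (hsq : ¬ ∃ t, k = 2 * t ^ 2) (hc : (kk k).primeFactors.card ≤ 2)
    {y z : ℕ} (hy : y ∈ ySet k) (hz : z ∈ ySet k) (hy1 : y ≠ k - 1) (hz1 : z ≠ k - 1) :
    y = z := by
  rw [← card_idx] at hc
  apply el_inj hk hk3 hy hz
  by_cases he : Even k
  · exact lat_even PP_pos (min_even hk he) hc (hcor_mem hk he) (exists_odd hk he hsq)
      ⟨_, good_of_sq hk (el_norm hy), rfl⟩ ⟨_, good_of_sq hk (el_norm hz), rfl⟩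
      (el_box hk hy).1 (el_box hk hz).1 (el_box hk hy).2 (el_box hk hz).2
      (el_ne hk hk3 hy) (fun h => hy1 (el_cor hk hk3 hy (Or.inl h)))
      (fun h => hy1 (el_cor hk hk3 hy (Or.inr h)))
      (el_ne hk hk3 hz) (fun h => hz1 (el_cor hk hk3 hz (Or.inl h)))
      (fun h => hz1 (el_cor hk hk3 hz (Or.inr h)))
  · exact lat_odd PP_pos (min_odd hk he) hc (cor_mem hk)
      ⟨_, good_of_sq hk (el_norm hy), rfl⟩ ⟨_, good_of_sq hk (el_norm hz), rfl⟩
      (el_box hk hy).1 (el_box hk hz).1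
      (el_ne hk hk3 hy) (fun h => hy1 (el_cor hk hk3 hy (Or.inl h)))
      (fun h => hy1 (el_cor hk hk3 hy (Or.inr h)))
      (el_ne hk hk3 hz) (fun h => hz1 (el_cor hk hk3 hz (Or.inl h)))
      (fun h => hz1 (el_cor hk hk3 hz (Or.inr h)))

/-- bound for the number of classes when `k ≠ 2 t²` -/
theorem bound1 (hk3 : 3 ≤ k) (hsq : ¬ ∃ t, k = 2 * t ^ 2) :
    numClasses k + 1 ≤ 2 ^ ((kk k).primeFactors.card + 1) := by
  rw [numClasses_eq' hk, pow_succ]
  by_cases he : Even k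
  · have hno : ∀ y ∈ ySet k, nuv hk (el k y) ≠ hcor (aa k) ∧ nuv hk (el k y) ≠ -hcor (aa k) := by
      intro y hy
      obtain ⟨i, hi⟩ := exists_odd hk he hsq
      obtain ⟨c, hc⟩ := (el_box hk hy).2 i
      constructor
      · intro h
        apply hi
        have := congrFun h i
        simp only [hcor] at this
        exact ⟨c, by omega⟩
      · intro h
        apply hi
        have := congrFun h i
        simp only [hcor, Pi.neg_apply] at this
        exact ⟨-c, by omega⟩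
    have h1 := card_even hk hk3 he ((ySet k).erase (k - 1)) (Finset.erase_subset _ _)
      (fun y hy => (Finset.mem_erase.mp hy).1)
      (fun y hy => (hno y (Finset.mem_erase.mp hy).2).1)
      (fun y hy => (hno y (Finset.mem_erase.mp hy).2).2)
    rw [Finset.card_erase_of_mem (last_mem hk)] at h1
    have h2 : 1 ≤ (ySet k).card := Finset.card_pos.mpr ⟨_, last_mem hk⟩
    omega
  · have := card_odd hk hk3 he
    omega

/-- bound for the number of classes, any `k` -/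
theorem bound2 (hk3 : 3 ≤ k) :
    numClasses k ≤ 2 ^ ((kk k).primeFactors.card + 1) + 1 := by
  classical
  rw [numClasses_eq' hk, pow_succ]
  by_cases he : Even k
  · set T : Finset ℕ := (ySet k).filter (fun y => nuv hk (el k y) = hcor (aa k) ∨
      nuv hk (el k y) = -hcor (aa k)) with hT
    have hT1 : T.card ≤ 1 := by
      rw [Finset.card_le_one]
      intro y hy z hz
      rw [hT, Finset.mem_filter] at hy hz
      apply el_inj hk hk3 hy.1 hz.1
      rcases hy.2 with h | h <;> rcases hz.2 with h' | h'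
      · left; rw [h, h']
      · right; rw [h, h', neg_neg]
      · right; rw [h, h']
      · left; rw [h, h']
    have h1 := card_even hk hk3 he (((ySet k).erase (k - 1)) \ T)
      (Finset.sdiff_subset.trans (Finset.erase_subset _ _))
      (fun y hy => (Finset.mem_erase.mp (Finset.mem_sdiff.mp hy).1).1)
      (fun y hy h => (Finset.mem_sdiff.mp hy).2 (by
        rw [hT, Finset.mem_filter]
        exact ⟨(Finset.mem_erase.mp (Finset.mem_sdiff.mp hy).1).2, Or.inl h⟩))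
      (fun y hy h => (Finset.mem_sdiff.mp hy).2 (by
        rw [hT, Finset.mem_filter]
        exact ⟨(Finset.mem_erase.mp (Finset.mem_sdiff.mp hy).1).2, Or.inr h⟩))
    have h2 := Finset.le_card_sdiff T ((ySet k).erase (k - 1))
    rw [Finset.card_erase_of_mem (last_mem hk)] at h2
    omega
  · have := card_odd hk hk3 he
    omega

/-- three or five classes -/
theorem three_five (hk3 : 3 ≤ k) (hsq : ¬ ∃ t, k = 2 * t ^ 2)
    (hc : (kk k).primeFactors.card ≤ 2) : numClasses k = 3 ∨ numClasses k = 5 := by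
  rw [numClasses_eq' hk]
  by_cases h : ∃ y ∈ ySet k, y ≠ k - 1
  · right
    obtain ⟨y, hy, hne⟩ := h
    have : ySet k = {k - 1, y} := by
      ext z
      rw [Finset.mem_insert, Finset.mem_singleton]
      constructor
      · intro hz
        by_cases hz1 : z = k - 1
        · exact Or.inl hz1
        · exact Or.inr (unique hk hk3 hsq hc hz hy hz1 hne)
      · rintro (rfl | rfl)
        · exact last_mem hk
        · exact hy
    rw [this, Finset.card_pair hne.symm]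
  · left
    push Not at h
    have : ySet k = {k - 1} := by
      ext z
      rw [Finset.mem_singleton]
      exact ⟨h z, fun hz => hz ▸ last_mem hk⟩
    rw [this, Finset.card_singleton]

end

end Pool.Agent.Lib.MP_b40da5_nt_h5
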