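import Pool.Agent.Lib.MP_b40da5_nt_h5.Two

set_option autoImplicit false

namespace Pool.Agent.Lib.MP_b40da5_nt_h5

open Pool.Agent.Lib.MP_b40da5_nt

theorem two_main (k m : ℕ) (hk : 2 ≤ k) (hm : (Odd k ∧ m = k) ∨ (Even k ∧ m = k / 2)) :
    3 ≤ numClasses k ∧ numClasses k ≤ 2 ^ (m.primeFactors.card + 1) + 1 ∧
    ((¬ ∃ t, k = 2 * t ^ 2) → numClasses k + 1 ≤ 2 ^ (m.primeFactors.card + 1)) ∧
    ((¬ ∃ t, k = 2 * t ^ 2) → m.primeFactors.card ≤ 2 →
      numClasses k = 3 ∨ numClasses k = 5) := by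
  have hmk : m = kk k := by
    unfold kk
    rcases hm with ⟨h1, h2⟩ | ⟨h1, h2⟩
    · rw [if_neg (Nat.not_even_iff_odd.mpr h1), h2]
    · rw [if_pos h1, h2]
  subst hmk
  refine ⟨?_, ?_⟩
  · rw [numClasses_eq' hk]
    have h2 : 1 ≤ (ySet k).card := Finset.card_pos.mpr ⟨_, last_mem hk⟩
    omega
  rcases Nat.lt_or_ge k 3 with h3 | h3
  · have hk2 : k = 2 := by omega
    subst hk2
    refine ⟨?_, fun h => absurd ⟨1, by norm_num⟩ h, fun h => absurd ⟨1, by norm_num⟩ h⟩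
    rw [numClasses_eq' hk]
    have h1 : (ySet 2).card ≤ 1 := by
      unfold ySet
      refine (Finset.card_filter_le _ _).trans ?_
      simp
    have h2 : 2 ^ 1 ≤ 2 ^ ((kk 2).primeFactors.card + 1) :=
      Nat.pow_le_pow_right (by norm_num) (by omega)
    omega
  · exact ⟨bound2 hk h3, bound1 hk h3, three_five hk h3⟩

end Pool.Agent.Lib.MP_b40da5_nt_h5
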